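import Pool.Agent.Helper286_MR.Defs
import Pool.Agent.H265R2.CritP4

/-!
# Ramsey numbers exist
-/

set_option autoImplicit false

namespace Pool.Agent.Helper286_MR

open scoped SimpleGraph

theorem arrows_of_card {n : ℕ} (G : SimpleGraph (Fin n)) : Arrows (2 ^ (n + n)) G := by
  classical
  intro R
  have key : ∀ (H : SimpleGraph (Fin (2 ^ (n + n)))) (T : Finset (Fin (2 ^ (n + n)))), T.card = n →
      (∀ x ∈ T, ∀ y ∈ T, x ≠ y → H.Adj x y) → G ⊑ H := by
    intro H T hT hH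
    let e := T.equivFinOfCardEq hT
    refine ⟨⟨⟨fun i => (e.symm i : Fin (2 ^ (n + n))), ?_⟩, ?_⟩⟩
    · intro a b hab
      refine hH _ (e.symm a).2 _ (e.symm b).2 ?_
      intro h
      exact hab.ne (e.symm.injective (Subtype.ext h))
    · intro a b h
      exact e.symm.injective (Subtype.ext h)
  rcases Pool.Agent.H265R2.CritP4.ramsey R (n + n) n n le_rfl Finset.univ (by simp) with
    ⟨T, -, hT, h⟩ | ⟨T, -, hT, h⟩
  · exact Or.inl (key R T hT h)
  · refine Or.inr (key Rᶜ T hT ?_)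
    intro x hx y hy hxy
    rw [SimpleGraph.compl_adj]
    exact ⟨hxy, h x hx y hy⟩

theorem arrows_ramsey {n : ℕ} (G : SimpleGraph (Fin n)) : Arrows (ramsey G) G :=
  Nat.sInf_mem (s := {N : ℕ | Arrows N G}) ⟨_, arrows_of_card G⟩

theorem ramsey_le {n N : ℕ} {G : SimpleGraph (Fin n)} (h : Arrows N G) : ramsey G ≤ N := Nat.sInf_le h

theorem Arrows.mono {n N N' : ℕ} {G : SimpleGraph (Fin n)} (h : Arrows N G) (hN : N ≤ N') : Arrows N' G := by
  intro R
  have key : ∀ (A : SimpleGraph (Fin N)) (B : SimpleGraph (Fin N')),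
      (∀ x y, A.Adj x y → B.Adj (Fin.castLE hN x) (Fin.castLE hN y)) → G ⊑ A → G ⊑ B := by
    rintro A B hAB ⟨φ⟩
    refine ⟨⟨⟨fun i => Fin.castLE hN (φ i), ?_⟩, ?_⟩⟩
    · intro a b hab
      exact hAB _ _ (φ.toHom.map_adj hab)
    · intro a b hab
      exact φ.injective (Fin.castLE_injective hN hab)
  rcases h (R.comap (Fin.castLE hN)) with h | h
  · exact Or.inl (key _ R (fun x y hxy => hxy) h)
  · refine Or.inr (key _ Rᶜ (fun x y hxy => ?_) h)
    rw [SimpleGraph.compl_adj] at hxy ⊢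
    exact ⟨fun h => hxy.1 (Fin.castLE_injective hN h), hxy.2⟩

theorem lt_ramsey {n N : ℕ} {G : SimpleGraph (Fin n)} (h : ¬ Arrows N G) : N < ramsey G := by
  by_contra hcon
  exact h ((arrows_ramsey G).mono (not_lt.1 hcon))

theorem f_le {n : ℕ} {G : SimpleGraph (Fin n)} (hG : NoIsolated G) : f n ≤ ramsey G :=
  Nat.sInf_le ⟨G, hG, rfl⟩

theorem exists_f {n : ℕ} (hn : 2 ≤ n) : ∃ G : SimpleGraph (Fin n), NoIsolated G ∧ ramsey G = f n := by
  refine Nat.sInf_mem (s := {r : ℕ | ∃ G : SimpleGraph (Fin n), NoIsolated G ∧ ramsey G = r})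
    ⟨_, ⊤, ?_, rfl⟩
  intro v
  by_cases h : v = ⟨0, by omega⟩
  · exact ⟨⟨1, by omega⟩, by rw [SimpleGraph.top_adj, h]; simp⟩
  · exact ⟨⟨0, by omega⟩, by rw [SimpleGraph.top_adj]; exact h⟩

end Pool.Agent.Helper286_MR
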