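import Pool.Agent.Helper286_MR.Game

/-!
# Star forests in one of the colours
-/

set_option autoImplicit false
set_option linter.unusedSectionVars false

namespace Pool.Agent.Helper286_MR

open Finset Classical
open scoped SimpleGraph

/-- vertices of the star forest whose stars have `l[0], l[1], …` leaves: `none` is the centre of a star -/
abbrev SV (l : List ℕ) : Type := Σ i : Fin l.length, Option (Fin (l.get i))

/-- the star forest whose stars have `l[0], l[1], …` leaves -/
def SF (l : List ℕ) : SimpleGraph (SV l) :=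
  SimpleGraph.fromRel (fun x y => ∃ (i : Fin l.length) (j : Fin (l.get i)), x = ⟨i, none⟩ ∧ y = ⟨i, some j⟩)

variable {V : Type}

theorem sf_contained {H : SimpleGraph V} {l : List ℕ} {us : List V} {d : ℕ} {W W' : Finset V}
    (h : Rob H d W (us.zip l) W') (hlen : us.length = l.length) (hnd : us.Nodup)
    (hus : ∀ u ∈ us, u ∉ W) : SF l ⊑ H := by
  obtain ⟨L, hLW, hL, hLd⟩ := h.leaves
  have hzl : (us.zip l).length = l.length := by rw [List.length_zip, hlen, min_self]
  have hLc : ∀ i : Fin l.length, (L i).card = l.get i := by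
    intro i
    have h1 := (hL i (by rw [hzl]; exact i.2)).1
    rw [h1, List.getElem_zip]
    rfl
  have hLa : ∀ i : Fin l.length, ∀ v ∈ L i, H.Adj (us.get (i.cast hlen.symm)) v := by
    intro i v hv
    have h1 := (hL i (by rw [hzl]; exact i.2)).2 v hv
    rw [List.getElem_zip] at h1
    exact h1
  let φ : SV l → V := fun x => match x with
    | ⟨i, none⟩ => us.get (i.cast hlen.symm)
    | ⟨i, some j⟩ => (((L i).equivFinOfCardEq (hLc i)).symm j : V)
  have hφn : ∀ i : Fin l.length, φ ⟨i, none⟩ = us.get (i.cast hlen.symm) := fun i => rfl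
  have hφs : ∀ (i : Fin l.length) (j : Fin (l.get i)),
      φ ⟨i, some j⟩ = (((L i).equivFinOfCardEq (hLc i)).symm j : V) := fun i j => rfl
  have hφL : ∀ (i : Fin l.length) (j : Fin (l.get i)), φ ⟨i, some j⟩ ∈ L i := by
    intro i j
    rw [hφs]
    exact (((L i).equivFinOfCardEq (hLc i)).symm j).2
  have hφW : ∀ i : Fin l.length, φ ⟨i, none⟩ ∉ W := by
    intro i
    rw [hφn]
    exact hus _ (List.get_mem _ _)
  have hinj : Function.Injective φ := by
    rintro ⟨i, o⟩ ⟨i', o'⟩ hxy
    rcases o with _ | j <;> rcases o' with _ | j'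
    · rw [hφn, hφn] at hxy
      have h1 := (List.nodup_iff_injective_get.1 hnd) hxy
      have h2 : i = i' := by
        apply Fin.ext
        have := congrArg Fin.val h1
        simpa using this
      subst h2; rfl
    · exfalso
      have h1 := hLW _ (hφL i' j')
      rw [← hxy] at h1
      exact hφW i h1
    · exfalso
      have h1 := hLW _ (hφL i j)
      rw [hxy] at h1
      exact hφW i' h1
    · by_cases hii : i = i'
      · subst hii
        rw [hφs, hφs] at hxy
        have h1 := ((L i).equivFinOfCardEq (hLc i)).symm.injective (Subtype.ext hxy)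
        rw [h1]
      · exfalso
        have h1 := hφL i j
        have h2 := hφL i' j'
        rw [← hxy] at h2
        have h3 : (i : ℕ) ≠ i' := fun h => hii (Fin.ext h)
        rcases lt_or_gt_of_ne h3 with h3 | h3
        · exact (disjoint_left.1 (hLd _ _ h3)) h1 h2
        · exact (disjoint_left.1 (hLd _ _ h3)) h2 h1
  have hhom : ∀ x y : SV l, (SF l).Adj x y → H.Adj (φ x) (φ y) := by
    intro x y hxy
    rw [SF, SimpleGraph.fromRel_adj] at hxy
    obtain ⟨_, ⟨i, j, rfl, rfl⟩ | ⟨i, j, rfl, rfl⟩⟩ := hxy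
    · exact hLa i _ (hφL i j)
    · exact (hLa i _ (hφL i j)).symm
  exact ⟨⟨⟨φ, fun {x y} h => hhom x y h⟩, hinj⟩⟩

variable [Fintype V]

/-- the parameters fit -/
structure Par (N κ K e K' ρ d1 d2 : ℕ) (θ α : ℝ) (l1 l2 l3 : List ℕ) : Prop where
  hlen : l1.length + l2.length + l3.length ≤ κ
  hρ : l3.length ≤ ρ
  hd2 : l2.length + ρ ≤ d2
  hd1 : l1.length + l3.length + d2 ≤ d1
  hκK : κ < K
  hρK' : ρ < K'
  hα : 1 - α ≤ (1 - α / 2) * (1 - ρ / K')
  hα0 : 0 ≤ α
  hα1 : α ≤ 1
  he1 : κ < e
  he : e ≤ K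
  heα : 1 / e + α ≤ (1 - θ) * (1 - κ / e)
  hθ0 : 0 ≤ θ
  hθ1 : θ ≤ 1
  hcθ : 1 - (1 - 1 / (K : ℝ)) / 2 ≤ (1 - θ) * (1 - κ / K)
  hN : K + K' + 2 * κ ≤ N
  hF1 : Fit θ d1 (N - K) l1
  hF2 : Fit θ d2 (N - K - l1.length - l1.sum) l2
  hF3 : Fit (α / 2) ρ (K - e) l3
  hF4 : Fit θ d1 (N - (l1.length + l2.length) - K') (l3 ++ l1)
  hF5 : Fit θ d2 (N - (l1.length + l2.length) - K' - (l3 ++ l1).length - (l3 ++ l1).sum) l2

theorem filter_mem_card_le (W : Finset V) (us : List V) : (W.filter (fun v => v ∈ us)).card ≤ us.length := by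
  calc (W.filter (fun v => v ∈ us)).card ≤ us.toFinset.card := by
        apply card_le_card
        intro v hv
        rw [List.mem_toFinset]
        exact (mem_filter.1 hv).2
    _ ≤ us.length := List.toFinset_card_le _

theorem core_one {κ K e K' ρ d1 d2 : ℕ} {θ α : ℝ} {l1 l2 l3 : List ℕ}
    (hP : Par (Fintype.card V) κ K e K' ρ d1 d2 θ α l1 l2 l3) (H : SimpleGraph V) {p : V → ℝ}
    (hp : Spread univ K p) {Bad : Finset V} (hBad : Bad.card = K)
    (hc : ∀ v ∈ univ \ Bad, (1 - 1 / (K : ℝ)) / 2 ≤ dg H p v) :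
    SF (l3 ++ (l1 ++ l2)) ⊑ H ∨ SF (l3 ++ (l1 ++ l2)) ⊑ Hᶜ := by
  have hlen := hP.hlen
  have hN := hP.hN
  have hd1 := hP.hd1
  have hd2 := hP.hd2
  have hρ := hP.hρ
  have hρK' := hP.hρK'
  have hκK := hP.hκK
  have he := hP.he
  have he1 := hP.he1
  have hcardV : (univ : Finset V).card = Fintype.card V := card_univ
  -- the main centres
  have hD1 : Dom H univ (univ \ Bad) κ θ := dom_of_spread hp hP.hκK hc hP.hθ1 hP.hcθ
  have hW1 : (univ \ Bad).card = Fintype.card V - K := by
    rw [card_sdiff_of_subset (subset_univ _), hcardV, hBad]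
  obtain ⟨us, hus1, hus2, -, W3, hW3a, hW3b, hW3c, W', hR⟩ := two_phase hD1 l1 l2 ρ d1 d2 (by omega)
    (by omega) (by omega) (by rw [hW1]; omega) (by rw [hW1]; exact hP.hF1) (by rw [hW1]; exact hP.hF2)
  rw [hW1] at hW3c
  set U : Finset V := us.toFinset with hU
  have hUc : U.card = l1.length + l2.length := by rw [hU, List.toFinset_card_of_nodup hus2, hus1]
  set P' : Finset V := univ \ U with hP'
  have hP'c : P'.card = Fintype.card V - (l1.length + l2.length) := by
    rw [hP', card_sdiff_of_subset (subset_univ _), hcardV, hUc]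
  have hW3P : W3 ⊆ P' := by
    intro v hv
    rw [hP', mem_sdiff]
    exact ⟨mem_univ _, fun h => hW3b v (List.mem_toFinset.1 h) hv⟩
  set S : Finset V := P' \ W3 with hS
  have hSc : S.card = K := by
    rw [hS, card_sdiff_of_subset hW3P, hP'c, hW3c]; omega
  rcases game H P' S K' e (by omega) (by omega) (by rw [hP'c]; omega) (by rw [hSc]; exact he) α with
    ⟨p', hp', B, hB, hBc, hBd⟩ | ⟨q, hq, A, hA, hAc, hAd⟩
  · -- the special centres exist
    left
    have hD2 : Dom H P' (S \ B) ρ (α / 2) :=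
      dom_of_spread hp' hρK' hBd (by linarith [hP.hα1, hP.hα0]) hP.hα
    have hSB : (S \ B).card = K - e := by rw [card_sdiff_of_subset hB, hSc, hBc]
    obtain ⟨ws, hws1, hws2, hws3, T', hT⟩ := greedy hD2 l3 (S \ B) ∅ (Subset.refl _) (by simp; exact hρ)
      (by rw [hSB]; exact hP.hF3)
    obtain ⟨T1, -, hT1⟩ := hT.remove ((S \ B).filter (fun v => v ∈ ws)) (filter_subset _ _)
      ((filter_mem_card_le _ _).trans (by rw [hws1]; exact hρ))
    obtain ⟨W1, -, hW1'⟩ := hR.remove (W3.filter (fun v => v ∈ ws)) (filter_subset _ _)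
      ((filter_mem_card_le _ _).trans (by rw [hws1]; exact hρ))
    have hT2 := hT1.mono (Nat.zero_le _)
    have hW2 := hW1'.mono (Nat.zero_le _)
    have hdisj : Disjoint ((S \ B) \ (S \ B).filter (fun v => v ∈ ws)) (W3 \ W3.filter (fun v => v ∈ ws)) := by
      rw [disjoint_left]
      intro v hv hv2
      rw [mem_sdiff, mem_sdiff, hS, mem_sdiff] at hv
      rw [mem_sdiff] at hv2
      exact hv.1.1.2 hv2.1
    have hcomb := hT2.combine hW2 hdisj
    rw [← List.zip_append hws1] at hcomb
    refine sf_contained hcomb (by simp [hws1, hus1]) ?_ ?_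
    · rw [List.nodup_append]
      refine ⟨hws2, hus2, ?_⟩
      intro a ha b hb hab
      subst hab
      have := (hws3 a ha).1
      rw [hP', mem_sdiff] at this
      exact this.2 (List.mem_toFinset.2 hb)
    · intro u hu hmem
      rcases List.mem_append.1 hu with hu | hu
      · rcases mem_union.1 hmem with h | h
        · have h0 := mem_sdiff.1 h
          exact h0.2 (mem_filter.2 ⟨h0.1, hu⟩)
        · have h0 := mem_sdiff.1 h
          exact h0.2 (mem_filter.2 ⟨h0.1, hu⟩)
      · rcases mem_union.1 hmem with h | h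
        · have h1 := (mem_sdiff.1 (mem_sdiff.1 h).1).1
          rw [hS, mem_sdiff, hP', mem_sdiff] at h1
          exact h1.1.2 (List.mem_toFinset.2 hu)
        · exact hW3b u hu (mem_sdiff.1 h).1
  · -- the other colour
    right
    have hcc : ∀ u ∈ P' \ A, 1 - 1 / (e : ℝ) - α ≤ dg Hᶜ q u := by
      intro u hu
      have h1 := hAd u hu
      have h2 := dg_compl (H := H) hq u
      linarith
    have hD3 : Dom Hᶜ S (P' \ A) κ θ := dom_of_spread hq he1 hcc hP.hθ1 (by
      have := hP.heα
      linarith)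
    have hPA : (P' \ A).card = Fintype.card V - (l1.length + l2.length) - K' := by
      rw [card_sdiff_of_subset hA, hP'c, hAc]
    obtain ⟨vs, hvs1, hvs2, -, X3, -, hX3b, -, X', hRX⟩ := two_phase hD3 (l3 ++ l1) l2 0 d1 d2
      (by rw [List.length_append]; omega) (by rw [List.length_append]; omega) (by omega)
      (by rw [hPA, List.length_append]; omega) (by rw [hPA]; exact hP.hF4) (by rw [hPA]; exact hP.hF5)
    rw [List.append_assoc] at hRX
    refine sf_contained hRX ?_ hvs2 hX3b
    rw [hvs1]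
    simp only [List.length_append]
    omega

/-- every graph or its complement contains the star forest -/
theorem core {κ K e K' ρ d1 d2 : ℕ} {θ α : ℝ} {l1 l2 l3 : List ℕ}
    (hP : Par (Fintype.card V) κ K e K' ρ d1 d2 θ α l1 l2 l3) (H : SimpleGraph V) :
    SF (l3 ++ (l1 ++ l2)) ⊑ H ∨ SF (l3 ++ (l1 ++ l2)) ⊑ Hᶜ := by
  have hκK := hP.hκK
  have hN := hP.hN
  have hcardV : (univ : Finset V).card = Fintype.card V := card_univ
  rcases game H univ univ K K (by omega) (by omega) (by rw [hcardV]; omega) (by rw [hcardV]; omega)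
    ((1 - 1 / (K : ℝ)) / 2) with ⟨p, hp, B, -, hBc, hBd⟩ | ⟨q, hq, A, -, hAc, hAd⟩
  · exact core_one hP H hp hBc hBd
  · have h1 : ∀ v ∈ univ \ A, (1 - 1 / (K : ℝ)) / 2 ≤ dg Hᶜ q v := by
      intro v hv
      have h2 := hAd v hv
      have h3 := dg_compl (H := H) hq v
      linarith
    have h4 := core_one hP Hᶜ hq hAc h1
    rw [compl_compl] at h4
    exact h4.symm

end Pool.Agent.Helper286_MR
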