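import Mathlib

/-!
# Ramsey numbers of graphs without isolated vertices: definitions
-/

set_option autoImplicit false

namespace Pool.Agent.Helper286_MR

open scoped SimpleGraph

/-- Every colouring of the edges of the complete graph on `N` vertices with two colours (the first colour is
the graph `R`, the second one its complement) contains a monochromatic copy of `G`. -/
def Arrows (N : ℕ) {n : ℕ} (G : SimpleGraph (Fin n)) : Prop :=
  ∀ R : SimpleGraph (Fin N), G ⊑ R ∨ G ⊑ Rᶜ

/-- the Ramsey number `r(G)` -/
noncomputable def ramsey {n : ℕ} (G : SimpleGraph (Fin n)) : ℕ := sInf {N : ℕ | Arrows N G}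

/-- no isolated vertex -/
def NoIsolated {n : ℕ} (G : SimpleGraph (Fin n)) : Prop := ∀ v : Fin n, ∃ w : Fin n, G.Adj v w

/-- the minimum of `r(G)` over all graphs `G` with `n` vertices and no isolated vertex -/
noncomputable def f (n : ℕ) : ℕ := sInf {r : ℕ | ∃ G : SimpleGraph (Fin n), NoIsolated G ∧ ramsey G = r}

end Pool.Agent.Helper286_MR
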