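import Pool.Agent.Helper286_MR.Rob
import Pool.Agent.H112R3.TA.Alpha

/-!
# A two-player game on a graph

By the finite minimax theorem either there is a spread out probability distribution on centres such that all
vertices but few have large degree to it, or there is a spread out distribution on vertices such that all
centres but few have small degree to it.
-/

set_option autoImplicit false
set_option linter.unusedSectionVars false

namespace Pool.Agent.Helper286_MR

open Finset Classical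

variable {V : Type} [Fintype V]

/-- spread out probability distribution supported on `P`: no mass exceeds `1 / a` -/
structure Spread (P : Finset V) (a : ℕ) (p : V → ℝ) : Prop where
  nonneg : ∀ u, 0 ≤ p u
  sum : ∑ u, p u = 1
  le : ∀ u, p u ≤ 1 / a
  supp : ∀ u, u ∉ P → p u = 0

/-- degree of `v` to the distribution `p` -/
noncomputable def dg (H : SimpleGraph V) (p : V → ℝ) (v : V) : ℝ := ∑ u, p u * (if H.Adj u v then 1 else 0)

/-- a set of given size with the smallest values -/
theorem exists_smallest (f : V → ℝ) (S : Finset V) : ∀ b : ℕ, b ≤ S.card →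
    ∃ B ⊆ S, B.card = b ∧ ∀ w ∈ B, ∀ v ∈ S \ B, f w ≤ f v := by
  intro b
  induction b with
  | zero => exact fun _ => ⟨∅, empty_subset _, rfl, by simp⟩
  | succ b ih =>
    intro hb
    obtain ⟨B, hB, hBc, hBf⟩ := ih (by omega)
    have hne : (S \ B).Nonempty := by
      rw [← card_pos, card_sdiff_of_subset hB]; omega
    obtain ⟨x, hx, hxf⟩ := exists_min_image (S \ B) f hne
    rw [mem_sdiff] at hx
    refine ⟨insert x B, insert_subset hx.1 hB, by rw [card_insert_of_notMem hx.2, hBc], ?_⟩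
    intro w hw v hv
    rw [mem_sdiff, mem_insert, not_or] at hv
    rcases mem_insert.1 hw with rfl | hw
    · exact hxf v (mem_sdiff.2 ⟨hv.1, hv.2.2⟩)
    · exact hBf w hw v (mem_sdiff.2 ⟨hv.1, hv.2.2⟩)

/-- if the average of `f` over the `b` smallest is at least `c`, all the others are at least `c` -/
theorem le_of_avg {f : V → ℝ} {S B : Finset V} {b : ℕ} {c : ℝ} (hb : 1 ≤ b) (hBc : B.card = b)
    (hBf : ∀ w ∈ B, ∀ v ∈ S \ B, f w ≤ f v) (havg : c * b ≤ ∑ w ∈ B, f w) :
    ∀ v ∈ S \ B, c ≤ f v := by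
  intro v hv
  have h1 : ∑ w ∈ B, f w ≤ ∑ _w ∈ B, f v := sum_le_sum (fun w hw => hBf w hw v hv)
  rw [sum_const, hBc, nsmul_eq_mul] at h1
  have hb0 : (0 : ℝ) < b := by exact_mod_cast hb
  have h2 : c * b ≤ f v * b := by linarith
  exact le_of_mul_le_mul_right h2 hb0

/-- the mixture of the uniform distributions on the members of a family of `a`-sets -/
noncomputable def mix (P : Finset V) (a : ℕ) (l : {A : Finset V // A ∈ P.powersetCard a} → ℝ) (u : V) : ℝ :=
  (∑ A, l A * (if u ∈ A.1 then 1 else 0)) / a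

theorem mix_spread (P : Finset V) (a : ℕ) (ha : 1 ≤ a)
    (l : {A : Finset V // A ∈ P.powersetCard a} → ℝ) (hl : ∀ A, 0 ≤ l A) (hl1 : ∑ A, l A = 1) :
    Spread P a (mix P a l) := by
  have ha0 : (0 : ℝ) < a := by exact_mod_cast ha
  refine ⟨?_, ?_, ?_, ?_⟩
  · intro u
    unfold mix
    refine div_nonneg (sum_nonneg (fun A _ => mul_nonneg (hl A) ?_)) ha0.le
    split_ifs <;> norm_num
  · unfold mix
    rw [← sum_div, sum_comm, div_eq_one_iff_eq ha0.ne']
    have h1 : ∀ A : {A : Finset V // A ∈ P.powersetCard a},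
        ∑ u, l A * (if u ∈ A.1 then (1 : ℝ) else 0) = l A * a := by
      intro A
      rw [← mul_sum, ← sum_filter, sum_const, nsmul_eq_mul, mul_one]
      have : (univ.filter (fun u => u ∈ A.1)) = A.1 := by ext; simp
      rw [this, (mem_powersetCard.1 A.2).2]
    rw [sum_congr rfl (fun A _ => h1 A), ← sum_mul, hl1, one_mul]
  · intro u
    unfold mix
    rw [div_le_div_iff_of_pos_right ha0]
    refine le_trans (sum_le_sum (fun A _ => ?_)) hl1.le
    split_ifs
    · simp
    · simp [hl A]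
  · intro u hu
    unfold mix
    rw [sum_eq_zero, zero_div]
    intro A _
    rw [if_neg, mul_zero]
    intro h
    exact hu ((mem_powersetCard.1 A.2).1 h)

/-- degrees to a mixture -/
theorem mix_dg (H : SimpleGraph V) (P : Finset V) (a : ℕ)
    (l : {A : Finset V // A ∈ P.powersetCard a} → ℝ) (v : V) :
    dg H (mix P a l) v = ∑ A, l A * ((∑ u ∈ A.1, if H.Adj u v then (1 : ℝ) else 0) / a) := by
  unfold dg mix
  have h1 : ∀ u : V, (∑ A : {A : Finset V // A ∈ P.powersetCard a}, l A * (if u ∈ A.1 then (1 : ℝ) else 0)) / a *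
      (if H.Adj u v then 1 else 0) =
      ∑ A : {A : Finset V // A ∈ P.powersetCard a}, l A * ((if u ∈ A.1 then (if H.Adj u v then (1 : ℝ) else 0) else 0) / a) := by
    intro u
    rw [sum_div, sum_mul]
    refine sum_congr rfl (fun A _ => ?_)
    by_cases h1 : u ∈ A.1
    · rw [if_pos h1, if_pos h1]; ring
    · rw [if_neg h1, if_neg h1]; ring
  rw [sum_congr rfl (fun u _ => h1 u), sum_comm]
  refine sum_congr rfl (fun A _ => ?_)
  rw [← mul_sum, ← sum_div, ← sum_filter]
  have : (univ.filter (fun u => u ∈ A.1)) = A.1 := by ext; simp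
  rw [this]

/-- the game -/
theorem game (H : SimpleGraph V) (P S : Finset V) (a b : ℕ) (ha : 1 ≤ a) (hb : 1 ≤ b) (haP : a ≤ P.card)
    (hbS : b ≤ S.card) (c : ℝ) :
    (∃ p : V → ℝ, Spread P a p ∧ ∃ B ⊆ S, B.card = b ∧ ∀ v ∈ S \ B, c ≤ dg H p v) ∨
    (∃ q : V → ℝ, Spread S b q ∧ ∃ A ⊆ P, A.card = a ∧ ∀ u ∈ P \ A, dg H q u < c) := by
  have ha0 : (0 : ℝ) < a := by exact_mod_cast ha
  have hb0 : (0 : ℝ) < b := by exact_mod_cast hb
  let I := {A : Finset V // A ∈ P.powersetCard a}
  let J := {B : Finset V // B ∈ S.powersetCard b}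
  have : Nonempty I := by
    obtain ⟨A, hA⟩ := powersetCard_nonempty.2 haP
    exact ⟨⟨A, hA⟩⟩
  have : Nonempty J := by
    obtain ⟨B, hB⟩ := powersetCard_nonempty.2 hbS
    exact ⟨⟨B, hB⟩⟩
  rcases Pool.Agent.H112R3.TA.minimax (I := I) (J := J)
    (fun A B => (∑ v ∈ B.1, (∑ u ∈ A.1, if H.Adj u v then (1 : ℝ) else 0) / a) / b) c with
    ⟨μ, hμ0, hμ1, hμ⟩ | ⟨l, hl0, hl1, hl⟩
  · right
    refine ⟨mix S b μ, mix_spread S b hb μ hμ0 hμ1, ?_⟩
    obtain ⟨A, hA, hAc, hAf⟩ := exists_smallest (fun u => - dg H (mix S b μ) u) P a haP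
    refine ⟨A, hA, hAc, ?_⟩
    have h1 := hμ ⟨A, mem_powersetCard.2 ⟨hA, hAc⟩⟩
    have h2 : ∑ u ∈ A, dg H (mix S b μ) u < c * a := by
      have h3 : ∑ u ∈ A, dg H (mix S b μ) u =
          a * ∑ B : J, μ B * ((∑ v ∈ B.1, (∑ u ∈ A, if H.Adj u v then (1 : ℝ) else 0) / a) / b) := by
        rw [sum_congr rfl (fun u _ => mix_dg H S b μ u), sum_comm, mul_sum]
        refine sum_congr rfl (fun B _ => ?_)
        rw [← mul_sum, ← sum_div, ← sum_div, sum_comm]
        have h4 : ∀ y ∈ B.1, ∑ x ∈ A, (if H.Adj y x then (1 : ℝ) else 0) =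
            ∑ x ∈ A, (if H.Adj x y then (1 : ℝ) else 0) := by
          intro y _
          refine sum_congr rfl (fun x _ => ?_)
          simp only [H.adj_comm]
        rw [sum_congr rfl h4]
        field_simp
      rw [h3, mul_comm c]
      exact mul_lt_mul_of_pos_left h1 ha0
    intro u hu
    by_contra hcon
    rw [not_lt] at hcon
    have h5 : ∑ _u ∈ A, c ≤ ∑ u' ∈ A, dg H (mix S b μ) u' := by
      refine sum_le_sum (fun w hw => ?_)
      have := hAf w hw u hu
      linarith
    rw [sum_const, hAc, nsmul_eq_mul] at h5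
    linarith
  · left
    refine ⟨mix P a l, mix_spread P a ha l hl0 hl1, ?_⟩
    obtain ⟨B, hB, hBc, hBf⟩ := exists_smallest (dg H (mix P a l)) S b hbS
    refine ⟨B, hB, hBc, le_of_avg hb hBc hBf ?_⟩
    have h1 := hl ⟨B, mem_powersetCard.2 ⟨hB, hBc⟩⟩
    have h3 : ∑ v ∈ B, dg H (mix P a l) v =
        b * ∑ A : I, l A * ((∑ v ∈ B, (∑ u ∈ A.1, if H.Adj u v then (1 : ℝ) else 0) / a) / b) := by
      rw [sum_congr rfl (fun u _ => mix_dg H P a l u), sum_comm, mul_sum]
      refine sum_congr rfl (fun A _ => ?_)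
      rw [← mul_sum]
      field_simp
    rw [h3, mul_comm c]
    exact mul_le_mul_of_nonneg_left h1 hb0.le

/-- from a spread out distribution to domination -/
theorem dom_of_spread {H : SimpleGraph V} {P W : Finset V} {a : ℕ} {p : V → ℝ} (hp : Spread P a p)
    {κ : ℕ} (hκ : κ < a) {c θ : ℝ} (hc : ∀ v ∈ W, c ≤ dg H p v)
    (hθ1 : θ ≤ 1) (hθ : 1 - c ≤ (1 - θ) * (1 - κ / a)) : Dom H P W κ θ := by
  intro Q hQ X hX
  by_contra hcon
  push Not at hcon
  have ha0 : (0 : ℝ) < a := by
    have : 0 < a := by omega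
    exact_mod_cast this
  -- mass outside `Q`
  set M : ℝ := ∑ u ∈ univ \ Q, p u with hM
  have hMQ : M + ∑ u ∈ Q, p u = 1 := by
    rw [hM, sum_sdiff (subset_univ Q)]; exact hp.sum
  have hQs : ∑ u ∈ Q, p u ≤ κ / a := by
    calc ∑ u ∈ Q, p u ≤ ∑ _u ∈ Q, (1 : ℝ) / a := sum_le_sum (fun u _ => hp.le u)
      _ = Q.card / a := by rw [sum_const, nsmul_eq_mul]; ring
      _ ≤ κ / a := by
          have : (Q.card : ℝ) ≤ κ := by exact_mod_cast hQ
          exact div_le_div_of_nonneg_right this ha0.le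
  have hκa : (κ : ℝ) / a < 1 := by
    rw [div_lt_one ha0]; exact_mod_cast hκ
  have hM0 : 1 - κ / a ≤ M := by linarith
  have hMpos : 0 < M := by linarith
  -- double counting
  have hlow : (c - 1 + M) * X.card ≤ ∑ u ∈ univ \ Q, p u * ((X.filter (fun v => H.Adj u v)).card : ℝ) := by
    have h1 : ∑ u ∈ univ \ Q, p u * ((X.filter (fun v => H.Adj u v)).card : ℝ) =
        ∑ v ∈ X, ∑ u ∈ univ \ Q, p u * (if H.Adj u v then 1 else 0) := by
      rw [sum_comm]
      refine sum_congr rfl (fun u _ => ?_)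
      rw [← mul_sum, card_filter]
      push_cast
      rfl
    rw [h1]
    have h2 : ∀ v ∈ X, c - 1 + M ≤ ∑ u ∈ univ \ Q, p u * (if H.Adj u v then 1 else 0) := by
      intro v hv
      have h3 : dg H p v = ∑ u ∈ univ \ Q, p u * (if H.Adj u v then 1 else 0) +
          ∑ u ∈ Q, p u * (if H.Adj u v then 1 else 0) := by
        unfold dg
        rw [sum_sdiff (subset_univ Q)]
      have h4 : ∑ u ∈ Q, p u * (if H.Adj u v then (1 : ℝ) else 0) ≤ ∑ u ∈ Q, p u := by
        refine sum_le_sum (fun u _ => ?_)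
        have := hp.nonneg u
        split_ifs <;> simp [this]
      have h5 := hc v (hX hv)
      linarith
    calc (c - 1 + M) * X.card = ∑ _v ∈ X, (c - 1 + M) := by rw [sum_const, nsmul_eq_mul]; ring
      _ ≤ _ := sum_le_sum h2
  have hup : ∑ u ∈ univ \ Q, p u * ((X.filter (fun v => H.Adj u v)).card : ℝ) < M * (θ * X.card) := by
    rw [hM, sum_mul]
    refine sum_lt_sum ?_ ?_
    · intro u hu
      rw [mem_sdiff] at hu
      by_cases huP : u ∈ P
      · exact mul_le_mul_of_nonneg_left (hcon u huP hu.2).le (hp.nonneg u)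
      · rw [hp.supp u huP]; simp
    · obtain ⟨u, hu, hup⟩ : ∃ u ∈ univ \ Q, 0 < p u := by
        by_contra hno
        push Not at hno
        have : M ≤ 0 := sum_nonpos hno
        linarith
      refine ⟨u, hu, ?_⟩
      have huP : u ∈ P := by
        by_contra h
        rw [hp.supp u h] at hup
        exact lt_irrefl _ hup
      exact mul_lt_mul_of_pos_left (hcon u huP (mem_sdiff.1 hu).2) hup
  have h1 : (c - 1 + M) * X.card < M * (θ * X.card) := lt_of_le_of_lt hlow hup
  have h2 : (1 - θ) * (1 - κ / a) ≤ (1 - θ) * M := mul_le_mul_of_nonneg_left hM0 (by linarith)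
  have h3 : (0 : ℝ) ≤ X.card := Nat.cast_nonneg _
  have h4 : 0 ≤ ((1 - θ) * M - (1 - c)) * X.card := mul_nonneg (by linarith) h3
  nlinarith

/-- the degree in the complement -/
theorem dg_compl {H : SimpleGraph V} {P : Finset V} {a : ℕ} {p : V → ℝ} (hp : Spread P a p) (v : V) :
    1 - 1 / a - dg H p v ≤ dg Hᶜ p v := by
  have h1 : dg H p v + dg Hᶜ p v = 1 - p v := by
    have h0 : (1 : ℝ) - p v = ∑ u, (p u - (if u = v then p u else 0)) := by
      rw [sum_sub_distrib, hp.sum]; simp
    unfold dg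
    rw [← sum_add_distrib, h0]
    refine sum_congr rfl (fun u _ => ?_)
    by_cases huv : u = v
    · subst huv; simp
    · by_cases hadj : H.Adj u v
      · have h3 : ¬ Hᶜ.Adj u v := by rw [SimpleGraph.compl_adj]; exact fun h => h.2 hadj
        rw [if_pos hadj, if_neg h3, if_neg huv]; ring
      · have h3 : Hᶜ.Adj u v := by rw [SimpleGraph.compl_adj]; exact ⟨huv, hadj⟩
        rw [if_neg hadj, if_pos h3, if_neg huv]; ring
  have := hp.le v
  linarith

end Pool.Agent.Helper286_MR
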