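import Pool.Agent.Helper286_MR.Rand

/-!
# The lower bound
-/

set_option autoImplicit false

namespace Pool.Agent.Helper286_MR

open Finset Classical
open scoped SimpleGraph

/-- a graph with a small vertex cover is not contained in a graph in which few vertices never dominate -/
theorem und_free {n j k : ℕ} {G : SimpleGraph (Fin n)} (hG : NoIsolated G) {X : Finset (Fin n)} (hX : X.card ≤ k)
    (hcov : ∀ a b : Fin n, G.Adj a b → a ∈ X ∨ b ∈ X) {H : SimpleGraph (Fin (n + j))} (hH : Und H k j) :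
    ¬ G ⊑ H := by
  rintro ⟨φ⟩
  set Y : Finset (Fin (n + j)) := X.image φ with hY
  have h1 := hH Y (card_image_le.trans hX)
  set D := univ.filter (fun v => v ∉ Y ∧ ∀ y ∈ Y, ¬ H.Adj y v) with hD
  have hdisj : Disjoint D (univ.image φ) := by
    rw [disjoint_left]
    intro v hv hv2
    rw [hD, mem_filter] at hv
    obtain ⟨a, -, rfl⟩ := mem_image.1 hv2
    obtain ⟨w, hw⟩ := hG a
    have haX : a ∉ X := fun h => hv.2.1 (mem_image_of_mem _ h)
    have hwX : w ∈ X := (hcov a w hw).resolve_left haX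
    exact hv.2.2 (φ w) (mem_image_of_mem _ hwX) (φ.toHom.map_adj hw.symm)
  have h2 : (univ.image φ).card = n := by
    have h4 : Function.Injective (φ : Fin n → Fin (n + j)) := φ.injective
    rw [card_image_of_injective _ h4, card_univ, Fintype.card_fin]
  have h3 : (D ∪ univ.image φ).card ≤ n + j := by
    calc _ ≤ (univ : Finset (Fin (n + j))).card := card_le_card (subset_univ _)
      _ = _ := by rw [card_univ, Fintype.card_fin]
  rw [card_union_of_disjoint hdisj, h2] at h3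
  omega

/-- the clique on the first `n - 1` vertices -/
def CL (n N : ℕ) : SimpleGraph (Fin N) where
  Adj u v := u ≠ v ∧ (u : ℕ) + 1 < n ∧ (v : ℕ) + 1 < n
  symm := by
    constructor
    rintro u v ⟨h1, h2, h3⟩
    exact ⟨h1.symm, h3, h2⟩
  loopless := by
    constructor
    rintro u ⟨h1, _⟩
    exact h1 rfl

theorem not_arrows {n j : ℕ} {G : SimpleGraph (Fin n)} (hG : NoIsolated G) (hn : 1 ≤ n)
    (hj : (j + 1) + j ≤ n + j)
    (hnum : 2 * (n + j) ^ ((j + 1) + j) * (2 ^ (j + 1) - 1) ^ (n + j - (j + 1) - j) <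
      (2 ^ (j + 1)) ^ (n + j - (j + 1) - j)) : ¬ Arrows (n + j) G := by
  intro hA
  by_cases hcov : ∃ X : Finset (Fin n), X.card ≤ j + 1 ∧ ∀ a b : Fin n, G.Adj a b → a ∈ X ∨ b ∈ X
  · obtain ⟨X, hX, hXc⟩ := hcov
    obtain ⟨R, hR1, hR2⟩ := exists_und hj hnum
    rcases hA R with h | h
    · exact und_free hG hX hXc hR1 h
    · exact und_free hG hX hXc hR2 h
  · rcases hA (CL n (n + j)) with h | h
    · -- no room in the clique
      obtain ⟨φ⟩ := h
      have h1 : ∀ a : Fin n, ((φ a : Fin (n + j)) : ℕ) < n - 1 := by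
        intro a
        obtain ⟨w, hw⟩ := hG a
        have h2 : (CL n (n + j)).Adj (φ a) (φ w) := φ.toHom.map_adj hw
        have h3 := h2.2.1
        omega
      have h2 : Function.Injective (fun a : Fin n => (⟨(φ a : ℕ), h1 a⟩ : Fin (n - 1))) := by
        intro a b hab
        have h3 : ((φ a : Fin (n + j)) : ℕ) = (φ b : Fin (n + j)) :=
          congrArg (fun x : Fin (n - 1) => x.val) hab
        exact φ.injective (Fin.ext h3)
      have h3 := Fintype.card_le_of_injective _ h2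
      simp only [Fintype.card_fin] at h3
      omega
    · -- a small vertex cover
      obtain ⟨φ⟩ := h
      apply hcov
      refine ⟨univ.filter (fun a => n ≤ ((φ a : Fin (n + j)) : ℕ) + 1), ?_, ?_⟩
      · have h1 : (univ.filter (fun a : Fin n => n ≤ ((φ a : Fin (n + j)) : ℕ) + 1)).card ≤
            (Finset.Ico (n - 1) (n + j)).card := by
          refine card_le_card_of_injOn (fun a => ((φ a : Fin (n + j)) : ℕ)) ?_ ?_
          · intro a ha
            have h2 := (mem_filter.1 (mem_coe.1 ha)).2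
            have h3 := (φ a).2
            rw [mem_coe, Finset.mem_Ico]
            show n - 1 ≤ ((φ a : Fin (n + j)) : ℕ) ∧ ((φ a : Fin (n + j)) : ℕ) < n + j
            omega
          · intro a _ b _ hab
            exact φ.injective (Fin.ext hab)
        refine h1.trans ?_
        rw [Nat.card_Ico]; omega
      · intro a b hab
        rw [mem_filter, mem_filter]
        by_contra hcon
        rw [not_or] at hcon
        have h1 : ¬ n ≤ ((φ a : Fin (n + j)) : ℕ) + 1 := fun h => hcon.1 ⟨mem_univ _, h⟩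
        have h2 : ¬ n ≤ ((φ b : Fin (n + j)) : ℕ) + 1 := fun h => hcon.2 ⟨mem_univ _, h⟩
        have h3 : (CL n (n + j))ᶜ.Adj (φ a) (φ b) := φ.toHom.map_adj hab
        rw [SimpleGraph.compl_adj] at h3
        exact h3.2 ⟨h3.1, by omega, by omega⟩

theorem growth2 {x : ℝ} (hx : 1 < x) (A : ℝ) : ∃ r0 : ℕ, ∀ r : ℕ, r0 ≤ r → A * (r : ℝ) ^ 2 < x ^ r := by
  have h1 := tendsto_pow_const_div_const_pow_of_one_lt 2 hx
  have h2 : ∀ᶠ r : ℕ in Filter.atTop, ((r : ℝ) ^ 2 / x ^ r) < 1 / (|A| + 1) :=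
    h1.eventually_lt_const (by positivity)
  obtain ⟨r0, hr0⟩ := Filter.eventually_atTop.1 h2
  refine ⟨r0, fun r hr => ?_⟩
  have h3 := hr0 r hr
  have hxr : 0 < x ^ r := pow_pos (by linarith) r
  rw [div_lt_div_iff₀ hxr (by positivity), one_mul] at h3
  have h4 : A * (r : ℝ) ^ 2 ≤ (r : ℝ) ^ 2 * (|A| + 1) := by
    have h5 : A ≤ |A| + 1 := by linarith [le_abs_self A]
    have h6 : (0 : ℝ) ≤ (r : ℝ) ^ 2 := by positivity
    nlinarith
  linarith

/-- the numerical condition -/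
theorem num_lower {ε : ℝ} (hε : 0 < ε) : ∃ n0 : ℕ, ∀ n : ℕ, n0 ≤ n →
    ∀ j : ℕ, (j : ℝ) ≤ (1 - ε) * Real.logb 2 n → 2 * (j + 1) ≤ n ∧
      2 * (n + j) ^ ((j + 1) + j) * (2 ^ (j + 1) - 1) ^ (n + j - (j + 1) - j) <
      (2 ^ (j + 1)) ^ (n + j - (j + 1) - j) := by
  have hx : (1 : ℝ) < (2 : ℝ) ^ ε := Real.one_lt_rpow (by norm_num) hε
  obtain ⟨r1, hr1⟩ := growth2 hx 128
  obtain ⟨r2, hr2⟩ := growth2 (show (1 : ℝ) < 2 by norm_num) 8
  refine ⟨2 ^ (r1 + r2 + 2), ?_⟩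
  intro n hn j hj
  have hn0 : 0 < n := lt_of_lt_of_le (by positivity) hn
  have hn0' : (0 : ℝ) < n := by exact_mod_cast hn0
  obtain ⟨lg, hlg⟩ : ∃ lg : ℝ, lg = Real.logb 2 n := ⟨_, rfl⟩
  rw [← hlg] at hj
  have hlg1 : ((r1 + r2 + 2 : ℕ) : ℝ) ≤ lg := by
    rw [hlg, Real.le_logb_iff_rpow_le (by norm_num) hn0', Real.rpow_natCast]
    exact_mod_cast hn
  push_cast at hlg1
  have q1 : (0 : ℝ) ≤ r1 := Nat.cast_nonneg _
  have q2 : (0 : ℝ) ≤ r2 := Nat.cast_nonneg _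
  have hlg2 : 2 ≤ lg := by linarith
  have hlg0 : 0 < lg := by linarith
  have hnlg : (n : ℝ) = (2 : ℝ) ^ lg := by rw [hlg, Real.rpow_logb (by norm_num) (by norm_num) hn0']
  obtain ⟨r, hr⟩ : ∃ r : ℕ, r = ⌊lg⌋₊ := ⟨_, rfl⟩
  have hrlg : (r : ℝ) ≤ lg := by rw [hr]; exact Nat.floor_le hlg0.le
  have hrlg2 : lg < r + 1 := by rw [hr]; exact Nat.lt_floor_add_one _
  have hlgr : lg ≤ 2 * r := by linarith
  have h1 := hr1 r (by
    have : (r1 : ℝ) < r + 1 := by linarith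
    have h5 : r1 < r + 1 := by exact_mod_cast this
    omega)
  have h2 := hr2 r (by
    have : (r2 : ℝ) < r + 1 := by linarith
    have h5 : r2 < r + 1 := by exact_mod_cast this
    omega)
  have hlg2r : lg ^ 2 ≤ 4 * (r : ℝ) ^ 2 := by nlinarith
  have hjlg : (j : ℝ) ≤ lg := by
    have : (1 - ε) * lg ≤ 1 * lg := mul_le_mul_of_nonneg_right (by linarith) hlg0.le
    linarith
  -- `n` is large compared with `j`
  have hn2 : 2 * lg ^ 2 ≤ n := by
    have h5 : (2 : ℝ) ^ r ≤ n := by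
      rw [hnlg, ← Real.rpow_natCast]
      exact Real.rpow_le_rpow_of_exponent_le (by norm_num) hrlg
    linarith
  have hjn : 2 * ((j : ℝ) + 1) ≤ n := by nlinarith
  have hjn' : 2 * (j + 1) ≤ n := by exact_mod_cast hjn
  refine ⟨hjn', ?_⟩
  obtain ⟨w, hw⟩ : ∃ w : ℕ, w = n + j - (j + 1) - j := ⟨_, rfl⟩
  rw [← hw]
  have hwn : (n : ℝ) ≤ 2 * w := by
    have : n ≤ 2 * w := by omega
    exact_mod_cast this
  -- the power of two
  have h2j : (2 : ℝ) ^ (j + 1) * (2 : ℝ) ^ (ε * lg) ≤ 2 * n := by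
    have h5 : (2 : ℝ) ^ j * (2 : ℝ) ^ (ε * lg) ≤ n := by
      rw [← Real.rpow_natCast, ← Real.rpow_add (by norm_num), hnlg]
      refine Real.rpow_le_rpow_of_exponent_le (by norm_num) ?_
      linarith
    calc (2 : ℝ) ^ (j + 1) * (2 : ℝ) ^ (ε * lg) = 2 * ((2 : ℝ) ^ j * (2 : ℝ) ^ (ε * lg)) := by ring
      _ ≤ 2 * n := by linarith
  have hp : (0 : ℝ) < (2 : ℝ) ^ (j + 1) := by positivity
  have hexp1 : 32 * lg ^ 2 < (2 : ℝ) ^ (ε * lg) := by
    have h5 : ((2 : ℝ) ^ ε) ^ r ≤ (2 : ℝ) ^ (ε * lg) := by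
      rw [← Real.rpow_natCast, ← Real.rpow_mul (by norm_num)]
      exact Real.rpow_le_rpow_of_exponent_le (by norm_num) (mul_le_mul_of_nonneg_left hrlg hε.le)
    linarith
  have hwp : 8 * lg ^ 2 < w / (2 : ℝ) ^ (j + 1) := by
    rw [lt_div_iff₀ hp]
    have h5 : 32 * lg ^ 2 * (2 : ℝ) ^ (j + 1) < (2 : ℝ) ^ (ε * lg) * (2 : ℝ) ^ (j + 1) :=
      mul_lt_mul_of_pos_right hexp1 hp
    linarith
  -- logarithm of the left side
  have hlog : Real.log (2 * ((n : ℝ) + j) ^ ((j + 1) + j)) ≤ 8 * lg ^ 2 := by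
    have hnj : (0 : ℝ) < (n : ℝ) + j := by positivity
    rw [Real.log_mul (by norm_num) (by positivity), Real.log_pow]
    have h5 : Real.log ((n : ℝ) + j) ≤ lg + 1 := by
      have h6 : (n : ℝ) + j ≤ 2 * n := by linarith
      have h7 : Real.log ((n : ℝ) + j) ≤ Real.log (2 * n) := Real.log_le_log hnj h6
      have h8 : Real.log (2 * (n : ℝ)) = Real.log 2 + lg * Real.log 2 := by
        rw [Real.log_mul (by norm_num) hn0'.ne', hnlg, Real.log_rpow (by norm_num)]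
      have h9 : Real.log 2 ≤ 1 := by have := Real.log_two_lt_d9; linarith
      have h10 : lg * Real.log 2 ≤ lg * 1 := mul_le_mul_of_nonneg_left h9 hlg0.le
      linarith
    have h9 : Real.log 2 ≤ 1 := by have := Real.log_two_lt_d9; linarith
    have h11 : (((j + 1) + j : ℕ) : ℝ) * Real.log ((n : ℝ) + j) ≤ (2 * lg + 1) * (lg + 1) := by
      have h12 : (((j + 1) + j : ℕ) : ℝ) ≤ 2 * lg + 1 := by push_cast; linarith
      calc (((j + 1) + j : ℕ) : ℝ) * Real.log ((n : ℝ) + j) ≤ (((j + 1) + j : ℕ) : ℝ) * (lg + 1) :=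
            mul_le_mul_of_nonneg_left h5 (Nat.cast_nonneg _)
        _ ≤ _ := mul_le_mul_of_nonneg_right h12 (by linarith)
    nlinarith
  -- the real inequality
  have hreal : 2 * ((n : ℝ) + j) ^ ((j + 1) + j) * ((2 : ℝ) ^ (j + 1) - 1) ^ w < ((2 : ℝ) ^ (j + 1)) ^ w := by
    have h5 : ((2 : ℝ) ^ (j + 1) - 1) ^ w ≤ ((2 : ℝ) ^ (j + 1)) ^ w * Real.exp (-(w / (2 : ℝ) ^ (j + 1))) := by
      have h6 : (2 : ℝ) ^ (j + 1) - 1 ≤ (2 : ℝ) ^ (j + 1) * Real.exp (-(1 / (2 : ℝ) ^ (j + 1))) := by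
        have h7 := Real.add_one_le_exp (-(1 / (2 : ℝ) ^ (j + 1)))
        have h8 : (2 : ℝ) ^ (j + 1) * (-(1 / (2 : ℝ) ^ (j + 1)) + 1) = (2 : ℝ) ^ (j + 1) - 1 := by
          field_simp; ring
        rw [← h8]
        exact mul_le_mul_of_nonneg_left h7 hp.le
      have h9 : (1 : ℝ) ≤ (2 : ℝ) ^ (j + 1) := one_le_pow₀ (by norm_num)
      calc ((2 : ℝ) ^ (j + 1) - 1) ^ w ≤ ((2 : ℝ) ^ (j + 1) * Real.exp (-(1 / (2 : ℝ) ^ (j + 1)))) ^ w :=
            pow_le_pow_left₀ (by linarith) h6 w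
        _ = ((2 : ℝ) ^ (j + 1)) ^ w * Real.exp (-(w / (2 : ℝ) ^ (j + 1))) := by
            rw [mul_pow, ← Real.exp_nat_mul]
            congr 2
            ring
    have h6 : 0 < 2 * ((n : ℝ) + j) ^ ((j + 1) + j) := by positivity
    have h7 : 2 * ((n : ℝ) + j) ^ ((j + 1) + j) < Real.exp (w / (2 : ℝ) ^ (j + 1)) := by
      rw [← Real.log_lt_iff_lt_exp h6]
      linarith
    calc 2 * ((n : ℝ) + j) ^ ((j + 1) + j) * ((2 : ℝ) ^ (j + 1) - 1) ^ w
        ≤ 2 * ((n : ℝ) + j) ^ ((j + 1) + j) * (((2 : ℝ) ^ (j + 1)) ^ w * Real.exp (-(w / (2 : ℝ) ^ (j + 1)))) :=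
          mul_le_mul_of_nonneg_left h5 h6.le
      _ < Real.exp (w / (2 : ℝ) ^ (j + 1)) * (((2 : ℝ) ^ (j + 1)) ^ w * Real.exp (-(w / (2 : ℝ) ^ (j + 1)))) :=
          mul_lt_mul_of_pos_right h7 (by positivity)
      _ = ((2 : ℝ) ^ (j + 1)) ^ w * (Real.exp (w / (2 : ℝ) ^ (j + 1)) * Real.exp (-(w / (2 : ℝ) ^ (j + 1)))) := by ring
      _ = ((2 : ℝ) ^ (j + 1)) ^ w := by rw [← Real.exp_add, add_neg_cancel, Real.exp_zero, mul_one]
  have hcast : ((2 ^ (j + 1) - 1 : ℕ) : ℝ) = (2 : ℝ) ^ (j + 1) - 1 := by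
    rw [Nat.cast_sub Nat.one_le_two_pow]; push_cast; ring
  have hfin : ((2 * (n + j) ^ ((j + 1) + j) * (2 ^ (j + 1) - 1) ^ w : ℕ) : ℝ) < (((2 ^ (j + 1)) ^ w : ℕ) : ℝ) := by
    rw [Nat.cast_mul, Nat.cast_mul, Nat.cast_pow, Nat.cast_pow, hcast]
    push_cast
    exact hreal
  exact_mod_cast hfin

end Pool.Agent.Helper286_MR
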