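import Pool.Agent.Helper286_MR.Num2
import Pool.Agent.Helper286_MR.Lower

/-!
# The minimum Ramsey number of graphs without isolated vertices
-/

set_option autoImplicit false

namespace Pool.Agent.Helper286_MR

open Filter Topology
open scoped SimpleGraph

theorem card_SV (l : List ℕ) : Fintype.card (SV l) = l.sum + l.length := by
  classical
  rw [Fintype.card_sigma]
  simp only [Fintype.card_option, Fintype.card_fin]
  rw [Finset.sum_add_distrib]
  simp only [Finset.sum_const, Finset.card_univ, Fintype.card_fin, smul_eq_mul, mul_one]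
  congr 1
  rw [← List.sum_ofFn]
  congr 1
  exact List.ofFn_get l

/-- the upper bound -/
theorem upper {ε : ℝ} (hε : 0 < ε) (hε1 : ε ≤ 1) : ∃ n0 : ℕ, ∀ n : ℕ, n0 ≤ n →
    (f n : ℝ) ≤ n + (1 + ε) * Real.logb 2 n := by
  obtain ⟨n0, h⟩ := num2 hε hε1
  refine ⟨n0, fun n hn => ?_⟩
  obtain ⟨m, κ, K, e, K', ρ, d1, d2, θ, α, l1, l2, l3, hm, hpos, hsum, hP⟩ := h n hn
  set l : List ℕ := l3 ++ (l1 ++ l2) with hl
  have hcard : Fintype.card (SV l) = n := by rw [card_SV, hsum]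
  let E : SV l ≃ Fin n := Fintype.equivFinOfCardEq hcard
  let G : SimpleGraph (Fin n) := (SF l).comap E.symm
  have hiso : G ⊑ SF l := by
    refine ⟨⟨⟨fun i => E.symm i, fun {a b} hab => hab⟩, ?_⟩⟩
    exact E.symm.injective
  have hG : NoIsolated G := by
    intro v
    obtain ⟨x, rfl⟩ := E.surjective v
    obtain ⟨i, o⟩ := x
    have hi : 1 ≤ l.get i := hpos _ (List.get_mem _ _)
    rcases o with _ | j
    · refine ⟨E ⟨i, some ⟨0, hi⟩⟩, ?_⟩
      show (SF l).Adj (E.symm (E ⟨i, none⟩)) (E.symm (E ⟨i, some ⟨0, hi⟩⟩))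
      rw [E.symm_apply_apply, E.symm_apply_apply, SF, SimpleGraph.fromRel_adj]
      exact ⟨by simp, Or.inl ⟨i, ⟨0, hi⟩, rfl, rfl⟩⟩
    · refine ⟨E ⟨i, none⟩, ?_⟩
      show (SF l).Adj (E.symm (E ⟨i, some j⟩)) (E.symm (E ⟨i, none⟩))
      rw [E.symm_apply_apply, E.symm_apply_apply, SF, SimpleGraph.fromRel_adj]
      exact ⟨by simp, Or.inr ⟨i, j, rfl, rfl⟩⟩
  have hA : Arrows (n + m) G := by
    intro R
    have hP' : Par (Fintype.card (Fin (n + m))) κ K e K' ρ d1 d2 θ α l1 l2 l3 := by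
      rw [Fintype.card_fin]; exact hP
    rcases core hP' R with h | h
    · exact Or.inl (hiso.trans h)
    · exact Or.inr (hiso.trans h)
  have h1 : f n ≤ n + m := (f_le hG).trans (ramsey_le hA)
  have h2 : (f n : ℝ) ≤ n + m := by exact_mod_cast h1
  linarith

/-- the lower bound -/
theorem lower {ε : ℝ} (hε : 0 < ε) (hε1 : ε ≤ 1) : ∃ n0 : ℕ, ∀ n : ℕ, n0 ≤ n →
    (n : ℝ) + (1 - ε) * Real.logb 2 n ≤ f n := by
  obtain ⟨n0, h⟩ := num_lower hε
  refine ⟨n0 + 2, fun n hn => ?_⟩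
  obtain ⟨G, hG, hGf⟩ := exists_f (show 2 ≤ n by omega)
  have hn1 : (1 : ℝ) ≤ n := by exact_mod_cast (by omega : 1 ≤ n)
  have hlg : 0 ≤ (1 - ε) * Real.logb 2 n :=
    mul_nonneg (by linarith) (Real.logb_nonneg (by norm_num) hn1)
  have h1 := h n (by omega) ⌊(1 - ε) * Real.logb 2 n⌋₊ (Nat.floor_le hlg)
  have h2 := not_arrows hG (by omega) (by omega) h1.2
  have h3 := lt_ramsey h2
  rw [hGf] at h3
  have h4 : ((n + ⌊(1 - ε) * Real.logb 2 n⌋₊ + 1 : ℕ) : ℝ) ≤ f n := by exact_mod_cast h3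
  push_cast at h4
  have h5 := Nat.lt_floor_add_one ((1 - ε) * Real.logb 2 n)
  linarith

/-- **The Burr–Erdős conjecture**: `f(n) = n + (1 + o(1)) log₂ n`. -/
theorem main : Tendsto (fun n : ℕ => ((f n : ℝ) - n) / Real.logb 2 n) atTop (𝓝 1) := by
  rw [Metric.tendsto_atTop]
  intro ε hε
  obtain ⟨δ, hδ⟩ : ∃ δ : ℝ, δ = min (ε / 2) 1 := ⟨_, rfl⟩
  have hδ0 : 0 < δ := by rw [hδ]; positivity
  have hδ1 : δ ≤ 1 := by rw [hδ]; exact min_le_right _ _
  have hδε : δ < ε := by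
    have : δ ≤ ε / 2 := by rw [hδ]; exact min_le_left _ _
    linarith
  obtain ⟨n1, h1⟩ := upper hδ0 hδ1
  obtain ⟨n2, h2⟩ := lower hδ0 hδ1
  refine ⟨n1 + n2 + 2, fun n hn => ?_⟩
  have hlg : 0 < Real.logb 2 n := Real.logb_pos (by norm_num) (by exact_mod_cast (by omega : 1 < n))
  have h3 := h1 n (by omega)
  have h4 := h2 n (by omega)
  rw [Real.dist_eq]
  have h5 : ((f n : ℝ) - n) / Real.logb 2 n ≤ 1 + δ := by
    rw [div_le_iff₀ hlg]; linarith
  have h6 : 1 - δ ≤ ((f n : ℝ) - n) / Real.logb 2 n := by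
    rw [le_div_iff₀ hlg]; linarith
  rw [abs_lt]
  constructor <;> linarith

end Pool.Agent.Helper286_MR
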