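import Pool.Agent.Helper286_MR.Sizes

/-!
# Parameters, first part: everything in terms of the number `κ` of stars
-/

set_option autoImplicit false

namespace Pool.Agent.Helper286_MR

/-- parameters in terms of `κ` -/
structure PK (η θ θ1 θ2 C : ℝ) (κ K e K' ρ τ3 τ1 : ℕ) : Prop where
  hρK' : ρ < K'
  hα : 1 - η / 8 ≤ (1 - η / 8 / 2) * (1 - (ρ : ℝ) / K')
  he1 : κ < e
  he : e < K
  hK'e : K' + κ ≤ e
  heα : 1 / (e : ℝ) + η / 8 ≤ (1 - θ) * (1 - κ / e)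
  hκK : κ < K
  hcθ : 1 - (1 - 1 / (K : ℝ)) / 2 ≤ (1 - θ) * (1 - κ / K)
  t3a : (ρ : ℝ) ≤ (η / 8 / 2 - η / 8 / 4) * τ3
  t3b : 1 ≤ (η / 8 / 4 - η / 8 / 8) * (τ3 : ℝ)
  t3c : 1 ≤ (1 - η / 8 / 4) * (τ3 : ℝ)
  t1a : ((κ + 2 * ρ : ℕ) : ℝ) ≤ (θ - θ1) * τ1
  t1b : 1 ≤ (θ1 - θ2) * (τ1 : ℝ)
  t1c : 1 ≤ (1 - θ1) * (τ1 : ℝ)
  gr3 : ∀ r : ℕ, (1 / (1 - η / 8 / 8)) ^ r ≤ (K : ℝ) → r ≤ ρ
  gr2 : ∀ t : ℕ, (5 / 4 : ℝ) ^ t ≤ 4 * τ1 + 1 → t ≤ ρ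
  hρη : 1 + 2 * (ρ : ℝ) ≤ 2 / 5 * η * κ
  hm : (e : ℝ) + τ3 + 4 * (2 * ρ + 1) ≤ (1 + 2 * η) * κ
  hC : (K : ℝ) + K' + κ + ρ ≤ C * κ

theorem f_heα {η θ κ e : ℝ} (hη : 0 < η) (hη1 : η ≤ 1 / 4) (hθ : θ < 1 / 2) (he0 : 0 < e)
    (he1 : κ + η * κ ≤ e) (hw : 1000 ≤ η * κ) :
    1 / e + η / 8 ≤ (1 - θ) * (1 - κ / e) := by
  have h5 : κ / e ≤ 1 / (1 + η) := by
    rw [div_le_div_iff₀ he0 (by linarith)]; linarith
  have h6 : 1 / (1 + η) ≤ 1 - 4 / 5 * η := by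
    rw [div_le_iff₀ (by linarith)]; nlinarith
  have h7 : 1 / e ≤ η / 8 := by
    rw [div_le_iff₀ he0]
    have h8 : η * (κ + η * κ) ≤ η * e := mul_le_mul_of_nonneg_left he1 hη.le
    have h9 : 0 ≤ η * (η * κ) := mul_nonneg hη.le (by linarith)
    linarith
  have h8 : (1 / 2 : ℝ) * (4 / 5 * η) ≤ (1 - θ) * (1 - κ / e) :=
    mul_le_mul (by linarith) (by linarith) (by positivity) (by linarith)
  linarith

theorem f_hcθ {θ D κ K : ℝ} (hθ : θ < 1 / 2) (hθ0 : 0 ≤ θ) (hD : D = 1 / (1 / 2 - θ)) (hκ0 : 0 < κ) (hK0 : 0 < K)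
    (hK1 : (κ + 1) * D ≤ K) : 1 - (1 - 1 / K) / 2 ≤ (1 - θ) * (1 - κ / K) := by
  have h0 : (0 : ℝ) < 1 / 2 - θ := by linarith
  have h5 : (κ + 1) / K ≤ 1 / 2 - θ := by
    rw [div_le_iff₀ hK0]
    have h6 : (1 / 2 - θ) * D = 1 := by rw [hD, mul_one_div, div_self h0.ne']
    have h7 : (1 / 2 - θ) * ((κ + 1) * D) ≤ (1 / 2 - θ) * K := mul_le_mul_of_nonneg_left hK1 h0.le
    have h8 : (1 / 2 - θ) * ((κ + 1) * D) = κ + 1 := by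
      calc (1 / 2 - θ) * ((κ + 1) * D) = ((1 / 2 - θ) * D) * (κ + 1) := by ring
        _ = _ := by rw [h6, one_mul]
    linarith
  have h6 : (κ + 1) / K = κ / K + 1 / K := by ring
  have h7 : 0 ≤ κ / K := by positivity
  have h8 : 0 < 1 / K := by positivity
  have h9 : 0 ≤ θ * (κ / K) := mul_nonneg hθ0 h7
  have h10 : (1 - θ) * (1 - κ / K) = 1 - θ - κ / K + θ * (κ / K) := by ring
  rw [h10]
  linarith

theorem f_t1 {a C1 κ ρ τ1 : ℝ} (ha : 0 < a) (hC : 1 / a ≤ C1) (h0 : 0 ≤ κ + 2 * ρ + 1)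
    (h : C1 * (κ + 2 * ρ + 1) ≤ τ1) : κ + 2 * ρ + 1 ≤ a * τ1 := by
  have h1 : 1 ≤ a * C1 := by
    have := mul_le_mul_of_nonneg_left hC ha.le
    rwa [mul_one_div, div_self ha.ne'] at this
  calc κ + 2 * ρ + 1 = 1 * (κ + 2 * ρ + 1) := by ring
    _ ≤ (a * C1) * (κ + 2 * ρ + 1) := mul_le_mul_of_nonneg_right h1 h0
    _ = a * (C1 * (κ + 2 * ρ + 1)) := by ring
    _ ≤ a * τ1 := mul_le_mul_of_nonneg_left h ha.le

theorem f_gr {x A γ Kr κ : ℝ} {ρ r0 : ℕ} (hγ : 0 < γ) (hA : 0 ≤ A) (hr0 : ∀ r : ℕ, r0 ≤ r → A / γ * r < x ^ r)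
    (hρ1 : γ * κ ≤ ρ) (hr : (r0 : ℝ) ≤ γ * κ) (hK : Kr ≤ A * κ) :
    ∀ r : ℕ, x ^ r ≤ Kr → r ≤ ρ := by
  intro r hr'
  by_contra hcon
  rw [not_le] at hcon
  have h5 : (ρ : ℝ) < r := by exact_mod_cast hcon
  have h6 : r0 ≤ r := by
    have h7 : (r0 : ℝ) ≤ r := by linarith
    exact_mod_cast h7
  have h7 := hr0 r h6
  have h8 : A / γ * (γ * κ) ≤ A / γ * r := mul_le_mul_of_nonneg_left (by linarith) (by positivity)
  have h9 : A / γ * (γ * κ) = A * κ := by field_simp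
  linarith

set_option maxHeartbeats 4000000 in
theorem num1 {η θ θ1 θ2 : ℝ} (hη : 0 < η) (hη1 : η ≤ 1 / 4) (h21 : θ2 < θ1)
    (h1 : θ1 < θ) (hθ : θ < 1 / 2) (hθ0 : 0 ≤ θ) :
    ∃ (κ0 : ℕ) (C : ℝ), 0 < C ∧ ∀ κ : ℕ, κ0 ≤ κ → ∃ K e K' ρ τ3 τ1 : ℕ,
      PK η θ θ1 θ2 C κ K e K' ρ τ3 τ1 := by
  obtain ⟨γ, hγ⟩ : ∃ γ : ℝ, γ = η ^ 2 / 256 := ⟨_, rfl⟩
  have hγ0 : 0 < γ := by rw [hγ]; positivity
  obtain ⟨D, hD⟩ : ∃ D : ℝ, D = 1 / (1 / 2 - θ) := ⟨_, rfl⟩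
  have hD2 : 2 ≤ D := by
    rw [hD, le_div_iff₀ (by linarith)]; linarith
  have hq1 : 0 < 1 / (θ - θ1) := by
    have : 0 < θ - θ1 := by linarith
    positivity
  have hq2 : 0 < 1 / (θ1 - θ2) := by
    have : 0 < θ1 - θ2 := by linarith
    positivity
  obtain ⟨C1, hC1⟩ : ∃ C1 : ℝ, C1 = 1 / (θ - θ1) + 1 / (θ1 - θ2) + 2 := ⟨_, rfl⟩
  have hC10 : 2 ≤ C1 := by linarith
  have hx3 : (1 : ℝ) < 1 / (1 - η / 8 / 8) := by
    rw [lt_div_iff₀ (by linarith)]; linarith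
  obtain ⟨r3, hr3⟩ := growth hx3 ((2 * D + 1) / γ)
  obtain ⟨r2, hr2⟩ := growth (show (1 : ℝ) < 5 / 4 by norm_num) ((16 * C1 + 5) / γ)
  obtain ⟨Bd, hBd⟩ : ∃ Bd : ℝ, Bd = (200 / η) / η + 1000 / η + (r3 + r2) / γ + 100 := ⟨_, rfl⟩
  refine ⟨⌈Bd⌉₊, 2 * D + 16 / η + 5, by positivity, ?_⟩
  intro κ hκ
  have hκB : Bd ≤ κ := (Nat.le_ceil _).trans (by exact_mod_cast hκ)
  have p1 : 0 ≤ (200 / η) / η := by positivity
  have p2 : 0 ≤ 1000 / η := by positivity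
  have p3 : 0 ≤ ((r3 : ℝ) + r2) / γ := by positivity
  have hκ100 : (100 : ℝ) ≤ κ := by linarith
  have hκ0 : (0 : ℝ) < κ := by linarith
  have hκη : 1000 ≤ η * κ := by
    have : 1000 / η ≤ κ := by linarith
    rw [div_le_iff₀ hη] at this; linarith
  have hκη2 : 200 / η ≤ η * κ := by
    have : (200 / η) / η ≤ κ := by linarith
    rw [div_le_iff₀ hη] at this; linarith
  have hκr : ((r3 : ℝ) + r2) ≤ γ * κ := by
    have : ((r3 : ℝ) + r2) / γ ≤ κ := by linarith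
    rw [div_le_iff₀ hγ0] at this; linarith
  have hw4 : η * κ ≤ 1 / 4 * κ := mul_le_mul_of_nonneg_right hη1 hκ0.le
  have hγw : γ * κ ≤ 1 / 1024 * (η * κ) := by
    have h5 : γ * κ = (η / 256) * (η * κ) := by rw [hγ]; ring
    rw [h5]
    exact mul_le_mul_of_nonneg_right (by linarith) (by linarith)
  have e3 : 16 / η * (γ * κ) = 1 / 16 * (η * κ) := by rw [hγ]; field_simp; ring
  have e4 : 64 / η * (γ * κ) = 1 / 4 * (η * κ) := by rw [hγ]; field_simp; ring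
  have q16 : 16 / η = (16 / 200) * (200 / η) := by ring
  have q64 : 64 / η = (64 / 200) * (200 / η) := by ring
  have q64' : (256 : ℝ) ≤ 64 / η := by rw [le_div_iff₀ hη]; linarith
  have hγκ0 : 0 < γ * κ := by positivity
  obtain ⟨ρ, hρ⟩ : ∃ ρ : ℕ, ρ = ⌈γ * κ⌉₊ := ⟨_, rfl⟩
  have hρ1 : γ * κ ≤ ρ := by rw [hρ]; exact Nat.le_ceil _
  have hρ2 : (ρ : ℝ) ≤ γ * κ + 1 := by rw [hρ]; exact (Nat.ceil_lt_add_one hγκ0.le).le
  have hρ0 : (0 : ℝ) < ρ := by linarith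
  have e1 : 2 * (ρ : ℝ) / (η / 8) = 16 / η * ρ := by field_simp; ring
  have e2 : 8 * ((ρ : ℝ) + 1) / (η / 8) = 64 / η * (ρ + 1) := by field_simp; ring
  obtain ⟨K', hK'⟩ : ∃ K' : ℕ, K' = ⌈2 * ρ / (η / 8)⌉₊ + 1 := ⟨_, rfl⟩
  have hK'1 : 16 / η * ρ ≤ (K' : ℝ) := by
    rw [← e1, hK', Nat.cast_add, Nat.cast_one]
    have := Nat.le_ceil (2 * (ρ : ℝ) / (η / 8))
    linarith
  have hK'2 : (K' : ℝ) ≤ 16 / η * ρ + 2 := by
    rw [← e1, hK', Nat.cast_add, Nat.cast_one]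
    have := (Nat.ceil_lt_add_one (show 0 ≤ 2 * (ρ : ℝ) / (η / 8) by positivity)).le
    linarith
  obtain ⟨e, he⟩ : ∃ e : ℕ, e = ⌈(1 + η) * κ⌉₊ := ⟨_, rfl⟩
  have he1 : κ + η * κ ≤ e := by
    have h5 : (1 + η) * (κ : ℝ) ≤ e := by rw [he]; exact Nat.le_ceil _
    linarith
  have he2 : (e : ℝ) ≤ κ + η * κ + 1 := by
    have h5 : (e : ℝ) < (1 + η) * κ + 1 := by rw [he]; exact Nat.ceil_lt_add_one (by positivity)
    linarith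
  obtain ⟨K, hK⟩ : ∃ K : ℕ, K = ⌈(κ + 1) * D⌉₊ := ⟨_, rfl⟩
  have hK1 : (κ + 1) * D ≤ K := by rw [hK]; exact Nat.le_ceil _
  have hK2 : (K : ℝ) ≤ (κ + 1) * D + 1 := by
    rw [hK]; exact (Nat.ceil_lt_add_one (by positivity)).le
  obtain ⟨τ3, hτ3⟩ : ∃ τ3 : ℕ, τ3 = ⌈8 * (ρ + 1) / (η / 8)⌉₊ := ⟨_, rfl⟩
  have hτ31 : 64 / η * (ρ + 1) ≤ (τ3 : ℝ) := by
    rw [← e2, hτ3]; exact Nat.le_ceil _
  have hτ32 : (τ3 : ℝ) ≤ 64 / η * (ρ + 1) + 1 := by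
    rw [← e2, hτ3]; exact (Nat.ceil_lt_add_one (by positivity)).le
  obtain ⟨τ1, hτ1⟩ : ∃ τ1 : ℕ, τ1 = ⌈C1 * (κ + 2 * ρ + 1)⌉₊ := ⟨_, rfl⟩
  have hτ11 : C1 * (κ + 2 * ρ + 1) ≤ (τ1 : ℝ) := by rw [hτ1]; exact Nat.le_ceil _
  have hτ12 : (τ1 : ℝ) ≤ C1 * (κ + 2 * ρ + 1) + 1 := by
    rw [hτ1]; exact (Nat.ceil_lt_add_one (by positivity)).le
  have hργ : (ρ : ℝ) ≤ κ := by linarith
  have e16 : 16 / η * ρ ≤ 1 / 16 * (η * κ) + 16 / η := by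
    calc 16 / η * ρ ≤ 16 / η * (γ * κ + 1) := mul_le_mul_of_nonneg_left hρ2 (by positivity)
      _ = _ := by rw [mul_add, e3, mul_one]
  have e64 : 64 / η * (ρ + 1) ≤ 1 / 4 * (η * κ) + 2 * (64 / η) := by
    calc 64 / η * ((ρ : ℝ) + 1) ≤ 64 / η * (γ * κ + 1 + 1) :=
          mul_le_mul_of_nonneg_left (by linarith) (by positivity)
      _ = 64 / η * (γ * κ) + 2 * (64 / η) := by ring
      _ = _ := by rw [e4]
  have he0 : (0 : ℝ) < e := by linarith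
  have hKκ : 2 * (κ + 1) ≤ (K : ℝ) := by
    have : ((κ : ℝ) + 1) * 2 ≤ (κ + 1) * D := mul_le_mul_of_nonneg_left hD2 (by linarith)
    linarith
  have hK0 : (0 : ℝ) < K := by linarith
  have hK'0 : (0 : ℝ) < K' := by
    have : 0 < 16 / η * (ρ : ℝ) := by positivity
    linarith
  have hK'e : (K' : ℝ) + κ ≤ e := by linarith
  have heK : (e : ℝ) < K := by linarith
  have hρK : (ρ : ℝ) < K' := by
    have h5 : (64 : ℝ) ≤ 16 / η := by rw [le_div_iff₀ hη]; linarith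
    have h6 : 64 * (ρ : ℝ) ≤ 16 / η * ρ := mul_le_mul_of_nonneg_right h5 hρ0.le
    linarith
  have t0 : (0 : ℝ) ≤ κ + 2 * ρ + 1 := by positivity
  clear hρ hK' he hK hτ3 hτ1
  refine ⟨K, e, K', ρ, τ3, τ1, ?_⟩
  constructor
  · exact_mod_cast hρK
  · -- hα
    have h5 : (ρ : ℝ) / K' ≤ η / 16 := by
      rw [div_le_iff₀ hK'0]
      have h6 : η / 16 * (16 / η * ρ) ≤ η / 16 * K' := mul_le_mul_of_nonneg_left hK'1 (by positivity)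
      have h7 : η / 16 * (16 / η * (ρ : ℝ)) = ρ := by field_simp
      linarith
    have h6 : 0 ≤ (ρ : ℝ) / K' := by positivity
    have h7 : 0 ≤ η * ((ρ : ℝ) / K') := by positivity
    have h8 : (1 - η / 8 / 2) * (1 - (ρ : ℝ) / K') = 1 - η / 16 - (ρ : ℝ) / K' + 1 / 16 * (η * ((ρ : ℝ) / K')) := by ring
    rw [h8]
    linarith
  · have : (κ : ℝ) < e := by linarith
    exact_mod_cast this
  · exact_mod_cast heK
  · exact_mod_cast hK'e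
  · exact f_heα hη hη1 hθ he0 he1 hκη
  · have : (κ : ℝ) < K := by linarith
    exact_mod_cast this
  · exact f_hcθ hθ hθ0 hD hκ0 hK0 hK1
  · -- t3a
    have h5 : (η / 8 / 2 - η / 8 / 4) * (64 / η * ((ρ : ℝ) + 1)) = 2 * (ρ + 1) := by field_simp; ring
    have h6 : (η / 8 / 2 - η / 8 / 4) * (64 / η * ((ρ : ℝ) + 1)) ≤ (η / 8 / 2 - η / 8 / 4) * τ3 :=
      mul_le_mul_of_nonneg_left hτ31 (by linarith)
    linarith
  · have h5 : (η / 8 / 4 - η / 8 / 8) * (64 / η * ((ρ : ℝ) + 1)) = (ρ + 1) := by field_simp; ring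
    have h6 : (η / 8 / 4 - η / 8 / 8) * (64 / η * ((ρ : ℝ) + 1)) ≤ (η / 8 / 4 - η / 8 / 8) * τ3 :=
      mul_le_mul_of_nonneg_left hτ31 (by linarith)
    linarith
  · have h6 : (256 : ℝ) * (ρ + 1) ≤ 64 / η * ((ρ : ℝ) + 1) :=
      mul_le_mul_of_nonneg_right q64' (by linarith)
    have h7 : (256 : ℝ) ≤ τ3 := by linarith
    have h8 : (1 / 2 : ℝ) * 256 ≤ (1 - η / 8 / 4) * τ3 :=
      mul_le_mul (by linarith) h7 (by norm_num) (by linarith)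
    linarith
  · -- t1a
    have h5 := f_t1 (show 0 < θ - θ1 by linarith) (show 1 / (θ - θ1) ≤ C1 by linarith) t0 hτ11
    push_cast
    linarith
  · have h5 := f_t1 (show 0 < θ1 - θ2 by linarith) (show 1 / (θ1 - θ2) ≤ C1 by linarith) t0 hτ11
    linarith
  · have h5 : 2 * ((κ : ℝ) + 2 * ρ + 1) ≤ C1 * (κ + 2 * ρ + 1) := mul_le_mul_of_nonneg_right hC10 t0
    have h7 : (2 : ℝ) ≤ τ1 := by linarith
    have h8 : (1 / 2 : ℝ) * 2 ≤ (1 - θ1) * τ1 := mul_le_mul (by linarith) h7 (by norm_num) (by linarith)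
    linarith
  · -- gr3
    refine f_gr hγ0 (by linarith) hr3 hρ1 ?_ ?_
    · have : (0 : ℝ) ≤ r2 := Nat.cast_nonneg _
      linarith
    · have h5 : D ≤ D * κ := by
        have := mul_le_mul_of_nonneg_left (show (1 : ℝ) ≤ κ by linarith) (show 0 ≤ D by linarith)
        linarith
      have h6 : ((κ : ℝ) + 1) * D = D * κ + D := by ring
      have h7 : (2 * D + 1) * (κ : ℝ) = 2 * (D * κ) + κ := by ring
      rw [h7]; linarith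
  · refine f_gr hγ0 (by linarith) hr2 hρ1 ?_ ?_
    · have : (0 : ℝ) ≤ r3 := Nat.cast_nonneg _
      linarith
    · have h5 : C1 * (κ + 2 * ρ + 1) ≤ C1 * (4 * κ) := mul_le_mul_of_nonneg_left (by linarith) (by linarith)
      have h7 : (16 * C1 + 5) * (κ : ℝ) = 4 * (C1 * (4 * κ)) + 5 * κ := by ring
      rw [h7]; linarith
  · -- hρη
    have h5 : 2 / 5 * η * (κ : ℝ) = 2 / 5 * (η * κ) := by ring
    rw [h5]; linarith
  · -- hm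
    have h5 : (1 + 2 * η) * (κ : ℝ) = κ + 2 * (η * κ) := by ring
    rw [h5]; linarith
  · have h5 : 16 / η * (ρ : ℝ) ≤ 16 / η * κ := mul_le_mul_of_nonneg_left hργ (by positivity)
    have h6 : D ≤ D * κ := by
      have := mul_le_mul_of_nonneg_left (show (1 : ℝ) ≤ κ by linarith) (show 0 ≤ D by linarith)
      linarith
    have h7 : ((κ : ℝ) + 1) * D = D * κ + D := by ring
    have h8 : (2 * D + 16 / η + 5) * (κ : ℝ) = 2 * (D * κ) + 16 / η * κ + 5 * κ := by ring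
    rw [h8]; linarith

end Pool.Agent.Helper286_MR
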