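import Pool.Agent.Helper286_MR.Num1

/-!
# Parameters, second part
-/

set_option autoImplicit false

namespace Pool.Agent.Helper286_MR

/-- the natural number part of the choice of the sizes -/
theorem num_nat {η θ θ1 θ2 C : ℝ} {n κ K e K' ρ τ3 τ1 : ℕ} (hη : 0 < η) (hη1 : η ≤ 1 / 4)
    (h2 : 0 < θ2) (h21 : θ2 < θ1) (h1 : θ1 < θ) (hθ : θ < 1 / 2) (hθ3 : 1 / 3 ≤ θ)
    (hP : PK η θ θ1 θ2 C κ K e K' ρ τ3 τ1) (hn : 30 * (K + K' + κ + ρ + 1) ≤ n)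
    (hlog : ∀ a : ℕ, (1 / (1 - θ2)) ^ a ≤ (n : ℝ) → a + 1 + 2 * ρ ≤ κ) :
    ∃ (l1 l2 l3 : List ℕ), (∀ s ∈ l3 ++ (l1 ++ l2), 1 ≤ s) ∧
      (l3 ++ (l1 ++ l2)).sum + (l3 ++ (l1 ++ l2)).length = n ∧
      Par (n + (e + τ3 + 4 * (2 * ρ + 1))) κ K e K' ρ (κ + 2 * ρ) (2 * ρ) θ (η / 8) l1 l2 l3 := by
  have hKe := hP.he
  have hK'e := hP.hK'e
  have heκ := hP.he1
  set m : ℕ := e + τ3 + 4 * (2 * ρ + 1) with hm
  set X : ℕ := K + κ + 1 with hX
  set M0 : ℕ := n - X with hM0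
  obtain ⟨l1, a1, a2, a3, a4, a5⟩ := sizes1 h2 h21 h1 (by linarith : θ < 1) hP.t1a hP.t1b hP.t1c M0 (by omega)
  obtain ⟨l2, b1, b2, b3, b4⟩ := sizes2 (θ := θ) (d := 2 * ρ) (g := 4 * (2 * ρ + 1)) (by linarith) (by omega)
    (M0 - l1.sum)
  obtain ⟨l3, c1, c2, c3, c4, c5⟩ := sizes1 (θ := η / 8 / 2) (θ1 := η / 8 / 4) (θ2 := η / 8 / 8) (d := ρ) (τ := τ3)
    (by linarith) (by linarith) (by linarith) (by linarith) hP.t3a hP.t3b hP.t3c (K - e) (by omega)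
  have hr : l3.length ≤ ρ := by
    refine hP.gr3 _ (c5.trans ?_)
    exact_mod_cast Nat.sub_le K e
  have ht : l2.length ≤ ρ := by
    refine hP.gr2 _ (b4.trans ?_)
    have : ((M0 - l1.sum : ℕ) : ℝ) ≤ τ1 := by exact_mod_cast a3
    linarith
  have hk1 : l1.length + 1 + 2 * ρ ≤ κ := by
    refine hlog _ (a5.trans ?_)
    exact_mod_cast Nat.sub_le n X
  set k : ℕ := 1 + l1.length + l2.length + l3.length with hk
  obtain ⟨x, hx⟩ : ∃ x : ℕ, x + (l1.sum + l2.sum + l3.sum) + k = n := by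
    refine ⟨n - (l1.sum + l2.sum + l3.sum) - k, ?_⟩
    omega
  have hx1 : 1 ≤ x := by omega
  have hx2 : x ≤ X := by omega
  have hθ0 : 0 ≤ θ := by linarith
  -- the large number condition
  have big : ∀ b c : ℕ, 3 * c ≤ b → (c : ℝ) ≤ θ * b := by
    intro b c hbc
    have h5 : (3 : ℝ) * c ≤ b := by exact_mod_cast hbc
    have h6 : (1 / 3 : ℝ) * b ≤ θ * b := mul_le_mul_of_nonneg_right hθ3 (Nat.cast_nonneg _)
    linarith
  refine ⟨x :: l1, l2, l3, ?_, ?_, ?_⟩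
  · intro s hs
    rcases List.mem_append.1 hs with hs | hs
    · exact c1 s hs
    · rcases List.mem_append.1 hs with hs | hs
      · rcases List.mem_cons.1 hs with rfl | hs
        · exact hx1
        · exact a1 s hs
      · exact b1 s hs
  · simp only [List.sum_append, List.sum_cons, List.length_append, List.length_cons]
    omega
  · constructor
    · simp only [List.length_cons]; omega
    · exact hr
    · omega
    · simp only [List.length_cons]; omega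
    · exact hP.hκK
    · exact hP.hρK'
    · exact hP.hα
    · linarith
    · linarith
    · exact hP.he1
    · exact hP.he.le
    · exact hP.heα
    · exact hθ0
    · linarith
    · exact hP.hcθ
    · omega
    · -- hF1
      refine ⟨?_, a4.mono hθ0 le_rfl (by omega)⟩
      have := big (n + m - K) (x + (κ + 2 * ρ)) (by omega)
      push_cast at this ⊢
      linarith
    · -- hF2
      refine Fit.mono hθ0 le_rfl ?_ b3
      simp only [List.length_cons, List.sum_cons]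
      omega
    · exact c4
    · -- hF4
      refine Fit.append ?_ ⟨?_, ?_⟩
      · refine fit_small hθ0 l3 _ (n + m - ((x :: l1).length + l2.length) - K' - l3.sum) ?_ ?_
        · simp only [List.length_cons]; omega
        · refine big _ _ ?_
          simp only [List.length_cons]; omega
      · have := big (n + m - ((x :: l1).length + l2.length) - K' - l3.sum) (x + (κ + 2 * ρ)) (by
          simp only [List.length_cons]; omega)
        push_cast at this ⊢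
        linarith
      · refine a4.mono hθ0 le_rfl ?_
        simp only [List.length_cons]; omega
    · -- hF5
      refine Fit.mono hθ0 le_rfl ?_ b3
      simp only [List.length_cons, List.length_append, List.sum_append, List.sum_cons]
      omega

/-- the parameters exist -/
theorem num2 {ε : ℝ} (hε : 0 < ε) (hε1 : ε ≤ 1) : ∃ n0 : ℕ, ∀ n : ℕ, n0 ≤ n →
    ∃ (m κ K e K' ρ d1 d2 : ℕ) (θ α : ℝ) (l1 l2 l3 : List ℕ),
      (m : ℝ) ≤ (1 + ε) * Real.logb 2 n ∧ (∀ s ∈ l3 ++ (l1 ++ l2), 1 ≤ s) ∧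
      (l3 ++ (l1 ++ l2)).sum + (l3 ++ (l1 ++ l2)).length = n ∧
      Par (n + m) κ K e K' ρ d1 d2 θ α l1 l2 l3 := by
  obtain ⟨η, hη⟩ : ∃ η : ℝ, η = ε / 4 := ⟨_, rfl⟩
  have hη0 : 0 < η := by rw [hη]; linarith
  have hη1 : η ≤ 1 / 4 := by rw [hη]; linarith
  obtain ⟨β, hβ⟩ : ∃ β : ℝ, β = 1 / (1 + η / 2) := ⟨_, rfl⟩
  have hβ0 : 0 < β := by rw [hβ]; positivity
  have hβ1 : β < 1 := by rw [hβ, div_lt_one (by linarith)]; linarith
  obtain ⟨θ2, hθ2⟩ : ∃ θ2 : ℝ, θ2 = 1 - (2 : ℝ) ^ (-β) := ⟨_, rfl⟩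
  have hpow1 : (2 : ℝ) ^ (-β) < 1 := Real.rpow_lt_one_of_one_lt_of_neg (by norm_num) (by linarith)
  have hpow2 : 1 / 2 < (2 : ℝ) ^ (-β) := by
    have h5 : (2 : ℝ) ^ (-1 : ℝ) < (2 : ℝ) ^ (-β) := Real.rpow_lt_rpow_of_exponent_lt (by norm_num) (by linarith)
    rw [Real.rpow_neg_one] at h5
    linarith
  have h2 : 0 < θ2 := by rw [hθ2]; linarith
  have h2' : θ2 < 1 / 2 := by rw [hθ2]; linarith
  have h12 : 1 - θ2 = (2 : ℝ) ^ (-β) := by rw [hθ2]; ring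
  obtain ⟨θ1, hθ1⟩ : ∃ θ1 : ℝ, θ1 = θ2 + (1 / 2 - θ2) / 3 := ⟨_, rfl⟩
  obtain ⟨θ, hθ⟩ : ∃ θ : ℝ, θ = θ2 + 2 * (1 / 2 - θ2) / 3 := ⟨_, rfl⟩
  have h21 : θ2 < θ1 := by rw [hθ1]; linarith
  have h1 : θ1 < θ := by rw [hθ, hθ1]; linarith
  have hθl : θ < 1 / 2 := by rw [hθ]; linarith
  have hθ3 : 1 / 3 ≤ θ := by rw [hθ]; linarith
  obtain ⟨κ0, C, hC0, hκ0⟩ := num1 hη0 hη1 h21 h1 hθl (by linarith)
  obtain ⟨r0, hr0⟩ := growth (show (1 : ℝ) < 2 by norm_num) (30 * (C * 4 + 1))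
  -- `n` is large
  refine ⟨2 ^ (κ0 + r0 + ⌈3 / η⌉₊ + 4), ?_⟩
  intro n hn
  have hn0 : 0 < n := lt_of_lt_of_le (by positivity) hn
  have hn0' : (0 : ℝ) < n := by exact_mod_cast hn0
  set lg : ℝ := Real.logb 2 n with hlg
  have hlg1 : ((κ0 + r0 + ⌈3 / η⌉₊ + 4 : ℕ) : ℝ) ≤ lg := by
    rw [hlg, Real.le_logb_iff_rpow_le (by norm_num) hn0', Real.rpow_natCast]
    exact_mod_cast hn
  have hlg2 : (κ0 : ℝ) + r0 + 3 / η + 4 ≤ lg := by
    refine le_trans ?_ hlg1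
    push_cast
    have := Nat.le_ceil (3 / η)
    linarith
  have q1 : 0 < 3 / η := by positivity
  have q2 : (0 : ℝ) ≤ κ0 := Nat.cast_nonneg _
  have q3 : (0 : ℝ) ≤ r0 := Nat.cast_nonneg _
  obtain ⟨κ, hκ⟩ : ∃ κ : ℕ, κ = ⌈(1 + η) * lg⌉₊ := ⟨_, rfl⟩
  have hlg0 : 0 < lg := by linarith
  have hκ1 : (1 + η) * lg ≤ κ := by rw [hκ]; exact Nat.le_ceil _
  have hκ2 : (κ : ℝ) ≤ (1 + η) * lg + 1 := by rw [hκ]; exact (Nat.ceil_lt_add_one (by positivity)).le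
  have hηlg : 3 ≤ η * lg := by
    have h5 : η * (3 / η) ≤ η * lg := mul_le_mul_of_nonneg_left (by linarith) hη0.le
    have h6 : η * (3 / η) = 3 := by field_simp
    linarith
  have hκκ0 : κ0 ≤ κ := by
    have : (κ0 : ℝ) ≤ κ := by linarith
    exact_mod_cast this
  obtain ⟨K, e, K', ρ, τ3, τ1, hP⟩ := hκ0 κ hκκ0
  have hκlg : (κ : ℝ) ≤ 2 * lg := by
    have h5 : η * lg ≤ 1 / 4 * lg := mul_le_mul_of_nonneg_right hη1 hlg0.le
    linarith
  -- size of `n`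
  have hbig : 30 * (K + K' + κ + ρ + 1) ≤ n := by
    have hfl : r0 ≤ ⌊lg⌋₊ := Nat.le_floor (by linarith)
    have h5 := hr0 ⌊lg⌋₊ hfl
    have h6 : (2 : ℝ) ^ ⌊lg⌋₊ ≤ n := by
      have h7 : ((⌊lg⌋₊ : ℕ) : ℝ) ≤ lg := Nat.floor_le hlg0.le
      rw [hlg, Real.le_logb_iff_rpow_le (by norm_num) hn0', Real.rpow_natCast] at h7
      exact h7
    have h7 : lg ≤ 2 * (⌊lg⌋₊ : ℝ) := by
      have h8 := Nat.lt_floor_add_one lg
      linarith
    have h8 : (K : ℝ) + K' + κ + ρ + 1 ≤ (C * 4 + 1) * ⌊lg⌋₊ := by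
      have h9 := hP.hC
      have h10 : C * κ ≤ C * (4 * ⌊lg⌋₊) := mul_le_mul_of_nonneg_left (by linarith) hC0.le
      have h11 : (1 : ℝ) ≤ ⌊lg⌋₊ := by linarith
      linarith
    have h9 : (30 : ℝ) * ((K : ℝ) + K' + κ + ρ + 1) ≤ n := by
      have : (30 : ℝ) * (C * 4 + 1) * ⌊lg⌋₊ = 30 * ((C * 4 + 1) * ⌊lg⌋₊) := by ring
      linarith
    exact_mod_cast h9
  have hlog : ∀ a : ℕ, (1 / (1 - θ2)) ^ a ≤ (n : ℝ) → a + 1 + 2 * ρ ≤ κ := by
    intro a ha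
    have h5 : (1 : ℝ) / (1 - θ2) = (2 : ℝ) ^ β := by
      rw [h12, Real.rpow_neg (by norm_num), one_div, inv_inv]
    rw [h5, ← Real.rpow_natCast, ← Real.rpow_mul (by norm_num)] at ha
    rw [← Real.le_logb_iff_rpow_le (by norm_num) hn0'] at ha
    change β * a ≤ lg at ha
    have h6 : (a : ℝ) ≤ (1 + η / 2) * lg := by
      have h7 : (1 + η / 2) * (β * a) ≤ (1 + η / 2) * lg := mul_le_mul_of_nonneg_left ha (by linarith)
      have h8 : (1 + η / 2) * (β * (a : ℝ)) = a := by rw [hβ]; field_simp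
      linarith
    have h7 := hP.hρη
    have h8 : (a : ℝ) + 1 + 2 * ρ ≤ κ := by
      have h9 : (1 + η / 2) * lg ≤ κ - 2 / 5 * η * κ := by
        have h10 : (1 - 2 / 5 * η) * ((1 + η) * lg) ≤ (1 - 2 / 5 * η) * κ :=
          mul_le_mul_of_nonneg_left hκ1 (by linarith)
        have h11 : (1 - 2 / 5 * η) * ((1 + η) * lg) = (1 + η / 2) * lg + η * lg * (1 / 10 - 2 / 5 * η) := by ring
        have h12 : 0 ≤ η * lg * (1 / 10 - 2 / 5 * η) := mul_nonneg (by positivity) (by linarith)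
        linarith
      linarith
    exact_mod_cast h8
  obtain ⟨l1, l2, l3, g1, g2, g3⟩ := num_nat hη0 hη1 h2 h21 h1 hθl hθ3 hP hbig hlog
  refine ⟨e + τ3 + 4 * (2 * ρ + 1), κ, K, e, K', ρ, κ + 2 * ρ, 2 * ρ, θ, η / 8, l1, l2, l3, ?_, g1, g2, g3⟩
  have h5 := hP.hm
  push_cast
  refine h5.trans ?_
  have h6 : (1 + 2 * η) * (κ : ℝ) ≤ (1 + 2 * η) * ((1 + η) * lg + 1) := mul_le_mul_of_nonneg_left hκ2 (by linarith)
  refine h6.trans ?_
  have h7 : (1 + 2 * η) * ((1 + η) * lg + 1) = (1 + 3 * η) * lg + 2 * η * (η * lg) + 1 + 2 * η := by ring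
  have h8 : 2 * η * (η * lg) ≤ 1 / 2 * (η * lg) := mul_le_mul_of_nonneg_right (by linarith) (by linarith)
  have h9 : (1 + ε) * lg = (1 + 4 * η) * lg := by rw [hη]; ring
  rw [h7, h9]
  have h10 : (1 + 4 * η) * lg = (1 + 3 * η) * lg + η * lg := by ring
  linarith

end Pool.Agent.Helper286_MR
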