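import Pool.Agent.Helper286_MR.Basic

/-!
# A colouring in which few vertices never dominate almost all vertices in one colour

Counting over all Boolean matrices `M`; the pair `{u, v}` is red when `M u v ≠ M v u`.
-/

set_option autoImplicit false

namespace Pool.Agent.Helper286_MR

open Finset Classical
open scoped SimpleGraph

variable {N : ℕ}

/-- matrices for which every `v ∈ W` sees the colour `b` in `Y` -/
def Ev (Y W : Finset (Fin N)) (b : Bool) : Finset (Fin N → Fin N → Bool) :=
  univ.filter (fun M => ∀ v ∈ W, ∃ y ∈ Y, xor (M y v) (M v y) = b)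

theorem ev_step (Y W : Finset (Fin N)) (b : Bool) (v : Fin N) (hvY : v ∉ Y) (hvW : v ∉ W) :
    (Ev Y (insert v W) b).card * 2 ^ Y.card ≤ (Ev Y W b).card * (2 ^ Y.card - 1) := by
  -- the bad part
  set B : Finset (Fin N → Fin N → Bool) := (Ev Y W b).filter (fun M => ¬ ∃ y ∈ Y, xor (M y v) (M v y) = b) with hB
  have hsplit : (Ev Y (insert v W) b).card + B.card = (Ev Y W b).card := by
    have h1 : Ev Y (insert v W) b = (Ev Y W b).filter (fun M => ∃ y ∈ Y, xor (M y v) (M v y) = b) := by
      ext M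
      simp only [Ev, mem_filter, mem_univ, true_and, mem_insert, forall_eq_or_imp]
      exact and_comm
    rw [h1, hB]
    exact card_filter_add_card_filter_not _
  -- the map to the bad part
  let g : (Fin N → Fin N → Bool) → (Fin N → Fin N → Bool) := fun M u y =>
    if u = v ∧ y ∈ Y then xor (M y v) (!b) else M u y
  have hgother : ∀ (M : Fin N → Fin N → Bool) (u y : Fin N), ¬ (u = v ∧ y ∈ Y) → g M u y = M u y := by
    intro M u y h
    exact if_neg h
  have hgv : ∀ (M : Fin N → Fin N → Bool) (y : Fin N), y ∈ Y → g M v y = xor (M y v) (!b) := by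
    intro M y h
    exact if_pos ⟨rfl, h⟩
  have hmap : ∀ M ∈ Ev Y W b, g M ∈ B := by
    intro M hM
    rw [hB, mem_filter]
    rw [Ev, mem_filter] at hM
    constructor
    · rw [Ev, mem_filter]
      refine ⟨mem_univ _, fun w hw => ?_⟩
      obtain ⟨y, hy, h⟩ := hM.2 w hw
      refine ⟨y, hy, ?_⟩
      rw [hgother M y w (fun h1 => hvY (h1.1 ▸ hy)), hgother M w y (fun h1 => hvW (h1.1 ▸ hw))]
      exact h
    · rintro ⟨y, hy, h⟩
      rw [hgother M y v (fun h1 => hvY (h1.1 ▸ hy)), hgv M y hy] at h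
      cases h1 : M y v <;> cases b <;> simp [h1] at h
  have hfib : ∀ M' ∈ (Ev Y W b).image g, ((Ev Y W b).filter (fun M => g M = M')).card ≤ 2 ^ Y.card := by
    intro M' _
    have h1 : ((Ev Y W b).filter (fun M => g M = M')).card ≤ (univ : Finset (Y → Bool)).card := by
      refine card_le_card_of_injOn (fun M y => M v y) (fun _ _ => mem_univ _) ?_
      intro M1 h1 M2 h2 h12
      have h1' := (mem_filter.1 (mem_coe.1 h1)).2
      have h2' := (mem_filter.1 (mem_coe.1 h2)).2
      funext u y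
      by_cases huy : u = v ∧ y ∈ Y
      · rw [huy.1]
        exact congrFun h12 ⟨y, huy.2⟩
      · rw [← hgother M1 u y huy, ← hgother M2 u y huy, h1', h2']
    refine h1.trans ?_
    simp
  have hcard : (Ev Y W b).card ≤ 2 ^ Y.card * ((Ev Y W b).image g).card :=
    card_le_mul_card_image _ _ hfib
  have himg : ((Ev Y W b).image g).card ≤ B.card := by
    apply card_le_card
    intro M' hM'
    obtain ⟨M, hM, rfl⟩ := mem_image.1 hM'
    exact hmap M hM
  have h1 : (Ev Y W b).card ≤ 2 ^ Y.card * B.card := hcard.trans (Nat.mul_le_mul_left _ himg)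
  have h2 : 1 ≤ 2 ^ Y.card := Nat.one_le_two_pow
  obtain ⟨q, hq⟩ : ∃ q, 2 ^ Y.card = q + 1 := ⟨2 ^ Y.card - 1, by omega⟩
  rw [hq] at h1 ⊢
  rw [← hsplit] at h1 ⊢
  rw [Nat.add_sub_cancel]
  nlinarith

theorem ev_card (Y : Finset (Fin N)) (b : Bool) (W : Finset (Fin N)) : Disjoint W Y →
    (Ev Y W b).card * (2 ^ Y.card) ^ W.card ≤
      (univ : Finset (Fin N → Fin N → Bool)).card * (2 ^ Y.card - 1) ^ W.card := by
  induction W using Finset.induction_on with
  | empty =>
    intro _
    simp only [card_empty, pow_zero, mul_one]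
    exact card_le_card (subset_univ _)
  | @insert v W hv ih =>
    intro hd
    rw [disjoint_insert_left] at hd
    have h1 := ih hd.2
    have h2 := ev_step Y W b v hd.1 hv
    rw [card_insert_of_notMem hv, pow_succ, pow_succ]
    calc (Ev Y (insert v W) b).card * ((2 ^ Y.card) ^ W.card * 2 ^ Y.card)
        = ((Ev Y (insert v W) b).card * 2 ^ Y.card) * (2 ^ Y.card) ^ W.card := by ring
      _ ≤ ((Ev Y W b).card * (2 ^ Y.card - 1)) * (2 ^ Y.card) ^ W.card := Nat.mul_le_mul_right _ h2
      _ = ((Ev Y W b).card * (2 ^ Y.card) ^ W.card) * (2 ^ Y.card - 1) := by ring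
      _ ≤ ((univ : Finset (Fin N → Fin N → Bool)).card * (2 ^ Y.card - 1) ^ W.card) * (2 ^ Y.card - 1) :=
          Nat.mul_le_mul_right _ h1
      _ = _ := by ring

/-- the graph of a matrix -/
def GM (M : Fin N → Fin N → Bool) : SimpleGraph (Fin N) where
  Adj u v := u ≠ v ∧ xor (M u v) (M v u) = true
  symm := by
    constructor
    rintro u v ⟨h1, h2⟩
    exact ⟨h1.symm, by rw [Bool.xor_comm]; exact h2⟩
  loopless := by
    constructor
    rintro u ⟨h1, _⟩
    exact h1 rfl

/-- few vertices never dominate almost all vertices in one colour -/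
def Und (R : SimpleGraph (Fin N)) (k j : ℕ) : Prop :=
  ∀ Y : Finset (Fin N), Y.card ≤ k → j < (univ.filter (fun v => v ∉ Y ∧ ∀ y ∈ Y, ¬ R.Adj y v)).card

theorem exists_und {k j : ℕ} (hkj : k + j ≤ N)
    (h : 2 * N ^ (k + j) * (2 ^ k - 1) ^ (N - k - j) < (2 ^ k) ^ (N - k - j)) :
    ∃ R : SimpleGraph (Fin N), Und R k j ∧ Und Rᶜ k j := by
  -- the index set of the bad events
  set Idx : Finset (Finset (Fin N) × Finset (Fin N) × Bool) :=
    ((univ : Finset (Fin N)).powersetCard k) ×ˢ ((univ : Finset (Fin N)).powersetCard j) ×ˢ univ with hIdx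
  have hIdxc : Idx.card ≤ 2 * N ^ (k + j) := by
    rw [hIdx, card_product, card_product, card_powersetCard, card_powersetCard]
    simp only [card_univ, Fintype.card_fin, Fintype.card_bool]
    calc N.choose k * (N.choose j * 2) ≤ N ^ k * (N ^ j * 2) :=
          Nat.mul_le_mul (Nat.choose_le_pow _ _) (Nat.mul_le_mul_right _ (Nat.choose_le_pow _ _))
      _ = _ := by ring
  -- a matrix outside all bad events
  obtain ⟨M, hM⟩ : ∃ M : Fin N → Fin N → Bool, ∀ Y T : Finset (Fin N), ∀ b : Bool, Y.card = k → T.card = j →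
      Disjoint T Y → M ∉ Ev Y (univ \ (Y ∪ T)) b := by
    by_contra hcon
    push Not at hcon
    have hcov : (univ : Finset (Fin N → Fin N → Bool)) ⊆
        (Idx.filter (fun x => Disjoint x.2.1 x.1)).biUnion (fun x => Ev x.1 (univ \ (x.1 ∪ x.2.1)) x.2.2) := by
      intro M _
      obtain ⟨Y, T, b, hY, hT, hd, hm⟩ := hcon M
      rw [mem_biUnion]
      refine ⟨(Y, T, b), ?_, hm⟩
      rw [mem_filter, hIdx, mem_product, mem_product, mem_powersetCard, mem_powersetCard]
      exact ⟨⟨⟨subset_univ _, hY⟩, ⟨subset_univ _, hT⟩, mem_univ _⟩, hd⟩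
    set Ω := (univ : Finset (Fin N → Fin N → Bool)).card with hΩ
    have hΩ0 : 0 < Ω := by
      rw [hΩ, card_pos]
      exact univ_nonempty
    have h1 : Ω * (2 ^ k) ^ (N - k - j) ≤ (2 * N ^ (k + j)) * (Ω * (2 ^ k - 1) ^ (N - k - j)) := by
      calc Ω * (2 ^ k) ^ (N - k - j)
          ≤ ((Idx.filter (fun x => Disjoint x.2.1 x.1)).biUnion
              (fun x => Ev x.1 (univ \ (x.1 ∪ x.2.1)) x.2.2)).card * (2 ^ k) ^ (N - k - j) :=
            Nat.mul_le_mul_right _ (card_le_card hcov)
        _ ≤ (∑ x ∈ Idx.filter (fun x => Disjoint x.2.1 x.1), (Ev x.1 (univ \ (x.1 ∪ x.2.1)) x.2.2).card) *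
              (2 ^ k) ^ (N - k - j) := Nat.mul_le_mul_right _ card_biUnion_le
        _ = ∑ x ∈ Idx.filter (fun x => Disjoint x.2.1 x.1), (Ev x.1 (univ \ (x.1 ∪ x.2.1)) x.2.2).card *
              (2 ^ k) ^ (N - k - j) := by rw [sum_mul]
        _ ≤ ∑ _x ∈ Idx.filter (fun x => Disjoint x.2.1 x.1), Ω * (2 ^ k - 1) ^ (N - k - j) := by
            refine sum_le_sum (fun x hx => ?_)
            rw [mem_filter, hIdx, mem_product, mem_product, mem_powersetCard, mem_powersetCard] at hx
            obtain ⟨⟨⟨_, hY⟩, ⟨_, hT⟩, _⟩, hd⟩ := hx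
            have h2 := ev_card x.1 x.2.2 (univ \ (x.1 ∪ x.2.1)) (by
              rw [disjoint_left]
              intro v hv hv2
              rw [mem_sdiff] at hv
              exact hv.2 (mem_union_left _ hv2))
            have h3 : (univ \ (x.1 ∪ x.2.1)).card = N - k - j := by
              rw [card_sdiff_of_subset (subset_univ _), card_union_of_disjoint hd.symm, hY, hT, card_univ,
                Fintype.card_fin]
              omega
            rw [h3, hY] at h2
            exact h2
        _ = (Idx.filter (fun x => Disjoint x.2.1 x.1)).card * (Ω * (2 ^ k - 1) ^ (N - k - j)) := by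
            rw [sum_const, smul_eq_mul]
        _ ≤ _ := Nat.mul_le_mul_right _ ((card_le_card (filter_subset _ _)).trans hIdxc)
    have h2 : (2 * N ^ (k + j)) * (Ω * (2 ^ k - 1) ^ (N - k - j)) < Ω * (2 ^ k) ^ (N - k - j) := by
      calc (2 * N ^ (k + j)) * (Ω * (2 ^ k - 1) ^ (N - k - j))
          = Ω * (2 * N ^ (k + j) * (2 ^ k - 1) ^ (N - k - j)) := by ring
        _ < _ := Nat.mul_lt_mul_of_pos_left h hΩ0
    omega
  -- conclusion
  have key : ∀ (b : Bool) (H : SimpleGraph (Fin N)), (∀ y v : Fin N, H.Adj y v → xor (M y v) (M v y) = b) →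
      Und H k j := by
    intro b H hH Y hY
    obtain ⟨Y', hYY', hY'⟩ := exists_superset_card_eq hY (by rw [Fintype.card_fin]; omega : k ≤ Fintype.card (Fin N))
    by_contra hcon
    rw [not_lt] at hcon
    set D : Finset (Fin N) := univ.filter (fun v => v ∉ Y' ∧ ∀ y ∈ Y', ¬ H.Adj y v) with hD
    have hDc : D.card ≤ j := by
      refine (card_le_card ?_).trans hcon
      intro v hv
      rw [hD, mem_filter] at hv
      rw [mem_filter]
      exact ⟨mem_univ _, fun h => hv.2.1 (hYY' h), fun y hy => hv.2.2 y (hYY' hy)⟩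
    have hDs : D ⊆ univ \ Y' := by
      intro v hv
      rw [hD, mem_filter] at hv
      rw [mem_sdiff]
      exact ⟨mem_univ _, hv.2.1⟩
    obtain ⟨T, hDT, hTs, hTc⟩ := exists_subsuperset_card_eq hDs hDc
      (by rw [card_sdiff_of_subset (subset_univ _), card_univ, Fintype.card_fin, hY']; omega)
    have hTY : Disjoint T Y' := by
      rw [disjoint_left]
      intro v hv hv2
      exact (mem_sdiff.1 (hTs hv)).2 hv2
    refine hM Y' T b hY' hTc hTY ?_
    rw [Ev, mem_filter]
    refine ⟨mem_univ _, fun v hv => ?_⟩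
    rw [mem_sdiff, mem_union, not_or] at hv
    by_contra hno
    push Not at hno
    refine hv.2.2 (hDT ?_)
    rw [hD, mem_filter]
    exact ⟨mem_univ _, hv.2.1, fun y hy hadj => hno y hy (hH y v hadj)⟩
  refine ⟨GM M, key true (GM M) (fun y v h => h.2), key false (GM M)ᶜ (fun y v h => ?_)⟩
  rw [SimpleGraph.compl_adj] at h
  by_contra hne
  refine h.2 ⟨h.1, ?_⟩
  cases hx : xor (M y v) (M v y)
  · exact absurd hx hne
  · rfl

end Pool.Agent.Helper286_MR
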