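import Mathlib

/-!
# Robust greedy assignments of leaves to centres

`Rob H d W l W'`: processing the list `l` of pairs (centre, number of leaves) from left to right, each centre
takes its leaves inside the part of `W` not yet used, where it has at least `d` more neighbours than it needs;
`W'` is the unused part at the end.
-/

set_option autoImplicit false

namespace Pool.Agent.Helper286_MR

open Finset Classical

variable {V : Type}

/-- robust greedy assignment of leaves -/
inductive Rob (H : SimpleGraph V) (d : ℕ) : Finset V → List (V × ℕ) → Finset V → Prop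
  | nil (W : Finset V) : Rob H d W [] W
  | cons {W L W' : Finset V} {u : V} {s : ℕ} {l : List (V × ℕ)} (hL : L ⊆ W)
      (hadj : ∀ v ∈ L, H.Adj u v) (hs : L.card = s)
      (hd : s + d ≤ (W.filter (fun v => H.Adj u v)).card) (h : Rob H d (W \ L) l W') :
      Rob H d W ((u, s) :: l) W'

variable {H : SimpleGraph V}

theorem Rob.mono {d d' : ℕ} (hdd : d' ≤ d) {W W' : Finset V} {l : List (V × ℕ)}
    (h : Rob H d W l W') : Rob H d' W l W' := by
  induction h with
  | nil W => exact Rob.nil W
  | cons hL hadj hs hd _ ih => exact Rob.cons hL hadj hs (by omega) ih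

theorem Rob.subset {d : ℕ} {W W' : Finset V} {l : List (V × ℕ)} (h : Rob H d W l W') : W' ⊆ W := by
  induction h with
  | nil W => exact Subset.refl _
  | cons hL hadj hs hd _ ih => exact ih.trans sdiff_subset

theorem Rob.card {d : ℕ} {W W' : Finset V} {l : List (V × ℕ)} (h : Rob H d W l W') :
    W'.card + (l.map Prod.snd).sum = W.card := by
  induction h with
  | nil W => simp
  | @cons W L W' u s l hL hadj hs hd _ ih =>
    rw [card_sdiff_of_subset hL] at ih
    have := card_le_card hL
    simp only [List.map_cons, List.sum_cons]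
    omega

theorem Rob.append {d : ℕ} {W W1 W2 : Finset V} {l1 l2 : List (V × ℕ)} (h1 : Rob H d W l1 W1)
    (h2 : Rob H d W1 l2 W2) : Rob H d W (l1 ++ l2) W2 := by
  induction h1 with
  | nil W => exact h2
  | cons hL hadj hs hd _ ih => exact Rob.cons hL hadj hs hd (ih h2)

/-- removing a few vertices costs a little of the surplus -/
theorem Rob.remove {d : ℕ} {W W' : Finset V} {l : List (V × ℕ)} (h : Rob H d W l W') :
    ∀ Z : Finset V, Z ⊆ W → Z.card ≤ d →
      ∃ W'' : Finset V, W'' ⊆ W' ∧ Rob H (d - Z.card) (W \ Z) l W'' := by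
  induction h with
  | nil W => exact fun Z _ _ => ⟨W \ Z, sdiff_subset, Rob.nil _⟩
  | @cons W L W' u s l hL hadj hs hd _ ih =>
    intro Z hZ hZd
    have hN : (W.filter (fun v => H.Adj u v)).card ≤
        ((W \ Z).filter (fun v => H.Adj u v)).card + Z.card := by
      calc (W.filter (fun v => H.Adj u v)).card ≤ (((W \ Z).filter (fun v => H.Adj u v)) ∪ Z).card := by
            apply card_le_card
            intro v hv
            rw [mem_filter] at hv
            rw [mem_union, mem_filter, mem_sdiff]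
            by_cases hvZ : v ∈ Z
            · exact Or.inr hvZ
            · exact Or.inl ⟨⟨hv.1, hvZ⟩, hv.2⟩
        _ ≤ _ := card_union_le _ _
    have hsub : L \ Z ⊆ (W \ Z).filter (fun v => H.Adj u v) := by
      intro v hv
      rw [mem_sdiff] at hv
      rw [mem_filter, mem_sdiff]
      exact ⟨⟨hL hv.1, hv.2⟩, hadj v hv.1⟩
    obtain ⟨L', hL'1, hL'2, hL'3⟩ := exists_subsuperset_card_eq hsub
      (by calc (L \ Z).card ≤ L.card := card_le_card sdiff_subset
            _ = s := hs)
      (by omega : s ≤ ((W \ Z).filter (fun v => H.Adj u v)).card)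
    have hL'W : L' ⊆ W \ Z := hL'2.trans (filter_subset _ _)
    set Z1 : Finset V := (W \ L) ∩ (Z ∪ L') with hZ1
    have heq : (W \ L) \ Z1 = (W \ Z) \ L' := by
      ext v
      simp only [hZ1, mem_sdiff, mem_inter, mem_union]
      constructor
      · rintro ⟨⟨h1, h2⟩, h3⟩
        refine ⟨⟨h1, fun h4 => h3 ⟨⟨h1, h2⟩, Or.inl h4⟩⟩, fun h4 => h3 ⟨⟨h1, h2⟩, Or.inr h4⟩⟩
      · rintro ⟨⟨h1, h2⟩, h3⟩
        have h4 : v ∉ L := fun h5 => h3 (hL'1 (mem_sdiff.2 ⟨h5, h2⟩))
        refine ⟨⟨h1, h4⟩, ?_⟩
        rintro ⟨_, h5 | h5⟩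
        · exact h2 h5
        · exact h3 h5
    have hcard : Z1.card = Z.card := by
      have h1 : ((W \ L) \ Z1).card = (W \ L).card - Z1.card :=
        card_sdiff_of_subset inter_subset_left
      have h2 : ((W \ Z) \ L').card = (W \ Z).card - L'.card := card_sdiff_of_subset hL'W
      have h3 : (W \ L).card = W.card - L.card := card_sdiff_of_subset hL
      have h4 : (W \ Z).card = W.card - Z.card := card_sdiff_of_subset hZ
      have h5 : Z1.card ≤ (W \ L).card := card_le_card inter_subset_left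
      have h6 : L'.card ≤ (W \ Z).card := card_le_card hL'W
      have h7 : L.card ≤ W.card := card_le_card hL
      have h8 : Z.card ≤ W.card := card_le_card hZ
      rw [heq] at h1
      omega
    obtain ⟨W'', hW'', hR⟩ := ih Z1 inter_subset_left (by omega)
    rw [heq, hcard] at hR
    refine ⟨W'', hW'', Rob.cons hL'W (fun v hv => (mem_filter.1 (hL'2 hv)).2) hL'3 (by omega) hR⟩

/-- adding vertices which are not used -/
theorem Rob.add {d : ℕ} {W W' : Finset V} {l : List (V × ℕ)} (h : Rob H d W l W') :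
    ∀ T : Finset V, Disjoint W T → Rob H d (W ∪ T) l (W' ∪ T) := by
  induction h with
  | nil W => exact fun T _ => Rob.nil _
  | @cons W L W' u s l hL hadj hs hd _ ih =>
    intro T hT
    have h1 := ih T (disjoint_of_subset_left sdiff_subset hT)
    have h2 : (W \ L) ∪ T = (W ∪ T) \ L := by
      ext v
      simp only [mem_union, mem_sdiff]
      constructor
      · rintro (⟨h3, h4⟩ | h3)
        · exact ⟨Or.inl h3, h4⟩
        · exact ⟨Or.inr h3, fun h4 => (disjoint_left.1 hT) (hL h4) h3⟩
      · rintro ⟨h3 | h3, h4⟩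
        · exact Or.inl ⟨h3, h4⟩
        · exact Or.inr h3
    rw [h2] at h1
    refine Rob.cons (hL.trans subset_union_left) hadj hs (hd.trans (card_le_card ?_)) h1
    exact filter_subset_filter _ subset_union_left

theorem Rob.combine {d : ℕ} {W W' T T' : Finset V} {l1 l2 : List (V × ℕ)} (h1 : Rob H d W l1 W')
    (h2 : Rob H d T l2 T') (hWT : Disjoint W T) : Rob H d (W ∪ T) (l1 ++ l2) (W' ∪ T') := by
  have h3 := h1.add T hWT
  have h4 := h2.add W' (disjoint_of_subset_right h1.subset hWT.symm)
  rw [union_comm T W', union_comm T' W'] at h4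
  exact h3.append h4

/-- the leaf sets -/
theorem Rob.leaves {d : ℕ} {W W' : Finset V} {l : List (V × ℕ)} (h : Rob H d W l W') :
    ∃ L : ℕ → Finset V, (∀ i, L i ⊆ W) ∧
      (∀ i (hi : i < l.length), (L i).card = (l[i]).2 ∧ ∀ v ∈ L i, H.Adj (l[i]).1 v) ∧
      (∀ i j, i < j → Disjoint (L i) (L j)) := by
  induction h with
  | nil W => exact ⟨fun _ => ∅, fun _ => empty_subset _, fun i hi => absurd hi (by simp), fun _ _ _ => by simp⟩
  | @cons W L W' u s l hL hadj hs hd _ ih =>
    obtain ⟨L', h1, h2, h3⟩ := ih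
    refine ⟨fun i => Nat.casesOn i L L', ?_, ?_, ?_⟩
    · intro i
      cases i with
      | zero => exact hL
      | succ i => exact (h1 i).trans sdiff_subset
    · intro i hi
      cases i with
      | zero => exact ⟨hs, hadj⟩
      | succ i =>
        simp only [List.length_cons, Nat.add_lt_add_iff_right] at hi
        exact h2 i hi
    · intro i j hij
      cases j with
      | zero => exact absurd hij (by simp)
      | succ j =>
        cases i with
        | zero =>
          exact disjoint_of_subset_right (h1 j) disjoint_sdiff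
        | succ i => exact h3 i j (by omega)

/-! ### domination and the greedy algorithm -/

/-- every subset of `W` is dominated to the proportion `θ` by some centre in `P` outside any small set -/
def Dom (H : SimpleGraph V) (P W : Finset V) (κ : ℕ) (θ : ℝ) : Prop :=
  ∀ Q : Finset V, Q.card ≤ κ → ∀ X : Finset V, X ⊆ W →
    ∃ u ∈ P, u ∉ Q ∧ θ * (X.card : ℝ) ≤ ((X.filter (fun v => H.Adj u v)).card : ℝ)

/-- the sizes in the list fit: each is at most `θ` times what remains, minus the surplus -/
def Fit (θ : ℝ) (d : ℕ) : ℕ → List ℕ → Prop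
  | _, [] => True
  | b, s :: l => ((s : ℝ) + d ≤ θ * b) ∧ Fit θ d (b - s) l

theorem Fit.mono {θ θ' : ℝ} (h0 : 0 ≤ θ) (hθ : θ ≤ θ') {d : ℕ} : ∀ {l : List ℕ} {b b' : ℕ}, b ≤ b' →
    Fit θ d b l → Fit θ' d b' l
  | [], _, _, _, _ => trivial
  | s :: l, b, b', hb, h => by
    refine ⟨h.1.trans ?_, Fit.mono h0 hθ (Nat.sub_le_sub_right hb s) h.2⟩
    have : (b : ℝ) ≤ b' := by exact_mod_cast hb
    calc θ * b ≤ θ * b' := mul_le_mul_of_nonneg_left this h0
      _ ≤ θ' * b' := mul_le_mul_of_nonneg_right hθ (by positivity)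

theorem Fit.append {θ : ℝ} {d : ℕ} : ∀ {l1 l2 : List ℕ} {b : ℕ}, Fit θ d b l1 →
    Fit θ d (b - l1.sum) l2 → Fit θ d b (l1 ++ l2)
  | [], l2, b, _, h2 => by simpa using h2
  | s :: l1, l2, b, h1, h2 => by
    refine ⟨h1.1, Fit.append h1.2 ?_⟩
    rw [List.sum_cons, ← Nat.sub_sub] at h2
    exact h2

theorem greedy {P W : Finset V} {κ : ℕ} {θ : ℝ} (hD : Dom H P W κ θ) {d : ℕ} :
    ∀ (l : List ℕ) (W0 Q : Finset V), W0 ⊆ W → Q.card + l.length ≤ κ → Fit θ d W0.card l →
      ∃ us : List V, us.length = l.length ∧ us.Nodup ∧ (∀ u ∈ us, u ∈ P ∧ u ∉ Q) ∧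
        ∃ W' : Finset V, Rob H d W0 (us.zip l) W' := by
  intro l
  induction l with
  | nil =>
    intro W0 Q _ _ _
    exact ⟨[], rfl, List.nodup_nil, by simp, W0, Rob.nil _⟩
  | cons s l ih =>
    intro W0 Q hW0 hQ hF
    obtain ⟨u, huP, huQ, hu⟩ := hD Q (by omega) W0 hW0
    have h1 : s + d ≤ (W0.filter (fun v => H.Adj u v)).card := by
      have := hF.1.trans hu
      exact_mod_cast this
    obtain ⟨L, hL1, hL2⟩ := exists_subset_card_eq (show s ≤ (W0.filter (fun v => H.Adj u v)).card by omega)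
    have hLW : L ⊆ W0 := hL1.trans (filter_subset _ _)
    have hcard : (W0 \ L).card = W0.card - s := by rw [card_sdiff_of_subset hLW, hL2]
    obtain ⟨us, h2, h3, h4, W', h5⟩ := ih (W0 \ L) (insert u Q) (sdiff_subset.trans hW0)
      (by
        have := card_insert_le u Q
        simp only [List.length_cons] at hQ
        omega) (by rw [hcard]; exact hF.2)
    refine ⟨u :: us, by simp [h2], ?_, ?_, W', ?_⟩
    · rw [List.nodup_cons]
      exact ⟨fun hmem => (h4 u hmem).2 (mem_insert_self _ _), h3⟩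
    · intro v hv
      rcases List.mem_cons.1 hv with rfl | hv
      · exact ⟨huP, huQ⟩
      · exact ⟨(h4 v hv).1, fun h => (h4 v hv).2 (mem_insert_of_mem h)⟩
    · rw [List.zip_cons_cons]
      exact Rob.cons hLW (fun v hv => (mem_filter.1 (hL1 hv)).2) hL2 h1 h5

theorem zip_snd_sum {us : List V} {l : List ℕ} (h : us.length = l.length) :
    ((us.zip l).map Prod.snd).sum = l.sum := by
  rw [List.map_snd_zip]
  omega

/-- greedy in two phases: no centre is a leaf -/
theorem two_phase {P W : Finset V} {κ : ℕ} {θ : ℝ} (hD : Dom H P W κ θ) (l1 l2 : List ℕ) (ρ d1 d2 : ℕ)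
    (hκ : l1.length + l2.length ≤ κ) (hd1 : l1.length + d2 ≤ d1) (hd2 : l2.length + ρ ≤ d2)
    (hW : l1.length + l2.length ≤ W.card) (hF1 : Fit θ d1 W.card l1)
    (hF2 : Fit θ d2 (W.card - l1.length - l1.sum) l2) :
    ∃ us : List V, us.length = l1.length + l2.length ∧ us.Nodup ∧ (∀ u ∈ us, u ∈ P) ∧
      ∃ W3 : Finset V, W3 ⊆ W ∧ (∀ u ∈ us, u ∉ W3) ∧ W3.card = W.card - (l1.length + l2.length) ∧
        ∃ W' : Finset V, Rob H ρ W3 (us.zip (l1 ++ l2)) W' := by
  obtain ⟨us1, h1, h2, h3, V1, hR1⟩ := greedy hD l1 W ∅ (Subset.refl _) (by simp; omega) hF1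
  have hU1 : (W.filter (fun v => v ∈ us1)).card ≤ l1.length := by
    calc (W.filter (fun v => v ∈ us1)).card ≤ us1.toFinset.card := by
          apply card_le_card
          intro v hv
          rw [List.mem_toFinset]
          exact (mem_filter.1 hv).2
      _ ≤ us1.length := List.toFinset_card_le _
      _ = _ := h1
  obtain ⟨Z1, hZ1a, hZ1b, hZ1c⟩ := exists_subsuperset_card_eq (filter_subset (fun v => v ∈ us1) W) hU1
    (by omega)
  obtain ⟨V1', hV1', hR1'⟩ := hR1.remove Z1 hZ1b (by omega)
  rw [hZ1c] at hR1'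
  have hR1'' := hR1'.mono (show d2 ≤ d1 - l1.length by omega)
  have hV1c : V1'.card = W.card - l1.length - l1.sum := by
    have h4 := hR1'.card
    rw [zip_snd_sum h1, card_sdiff_of_subset hZ1b, hZ1c] at h4
    omega
  have hV1W : V1' ⊆ W := hR1'.subset.trans sdiff_subset
  obtain ⟨us2, h5, h6, h7, V2, hR2⟩ := greedy hD l2 V1' us1.toFinset hV1W
    (by rw [List.toFinset_card_of_nodup h2, h1]; exact hκ) (by rw [hV1c]; exact hF2)
  have hR := hR1''.append hR2
  have hU2 : ((W \ Z1).filter (fun v => v ∈ us2)).card ≤ l2.length := by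
    calc ((W \ Z1).filter (fun v => v ∈ us2)).card ≤ us2.toFinset.card := by
          apply card_le_card
          intro v hv
          rw [List.mem_toFinset]
          exact (mem_filter.1 hv).2
      _ ≤ us2.length := List.toFinset_card_le _
      _ = _ := h5
  have hWZ : (W \ Z1).card = W.card - l1.length := by rw [card_sdiff_of_subset hZ1b, hZ1c]
  obtain ⟨Z2, hZ2a, hZ2b, hZ2c⟩ := exists_subsuperset_card_eq (filter_subset (fun v => v ∈ us2) (W \ Z1)) hU2
    (by omega)
  obtain ⟨V2', hV2', hR2'⟩ := hR.remove Z2 hZ2b (by omega)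
  rw [hZ2c] at hR2'
  refine ⟨us1 ++ us2, by simp [h1, h5], ?_, ?_, (W \ Z1) \ Z2, sdiff_subset.trans sdiff_subset, ?_, ?_,
    V2', ?_⟩
  · rw [List.nodup_append]
    refine ⟨h2, h6, ?_⟩
    intro a ha b hb hab
    subst hab
    exact (h7 a hb).2 (List.mem_toFinset.2 ha)
  · intro u hu
    rcases List.mem_append.1 hu with hu | hu
    · exact (h3 u hu).1
    · exact (h7 u hu).1
  · intro u hu hmem
    rw [mem_sdiff, mem_sdiff] at hmem
    rcases List.mem_append.1 hu with hu | hu
    · exact hmem.1.2 (hZ1a (mem_filter.2 ⟨hmem.1.1, hu⟩))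
    · exact hmem.2 (hZ2a (mem_filter.2 ⟨mem_sdiff.2 hmem.1, hu⟩))
  · rw [card_sdiff_of_subset hZ2b, hZ2c, hWZ]
    omega
  · rw [List.zip_append h1]
    exact hR2'.mono (by omega)

end Pool.Agent.Helper286_MR
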