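import Pool.Agent.Helper286_MR.Core

/-!
# Sizes of the stars
-/

set_option autoImplicit false

namespace Pool.Agent.Helper286_MR

/-- sizes which decrease geometrically -/
theorem sizes1 {θ θ1 θ2 : ℝ} (h2 : 0 < θ2) (h21 : θ2 < θ1) (h1 : θ1 < θ) (hθ : θ < 1) {d τ : ℕ}
    (hd : (d : ℝ) ≤ (θ - θ1) * τ) (hτ1 : 1 ≤ (θ1 - θ2) * (τ : ℝ)) (hτ2 : 1 ≤ (1 - θ1) * (τ : ℝ)) :
    ∀ M : ℕ, 1 ≤ M → ∃ l : List ℕ, (∀ s ∈ l, 1 ≤ s) ∧ l.sum ≤ M ∧ M - l.sum ≤ τ ∧ Fit θ d M l ∧
      (1 / (1 - θ2)) ^ l.length ≤ (M : ℝ) := by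
  intro M
  induction M using Nat.strong_induction_on with
  | _ M ih =>
    intro hM
    have hM' : (1 : ℝ) ≤ M := by exact_mod_cast hM
    by_cases hMτ : M ≤ τ
    · exact ⟨[], by simp, by simp, by simpa using hMτ, trivial, by simpa using hM'⟩
    · have hMτ' : (τ : ℝ) ≤ M := by exact_mod_cast (not_le.1 hMτ).le
      set s : ℕ := ⌊θ1 * M⌋₊ with hs
      have hθ1M : 0 ≤ θ1 * M := by nlinarith
      have hs1 : (s : ℝ) ≤ θ1 * M := Nat.floor_le hθ1M
      have hs2 : θ1 * M < s + 1 := Nat.lt_floor_add_one _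
      have hτ0 : (0 : ℝ) ≤ τ := Nat.cast_nonneg _
      have hs3 : 1 ≤ s := by
        rw [hs, Nat.one_le_floor_iff]
        have : (θ1 - θ2) * (τ : ℝ) ≤ θ1 * M := by nlinarith
        linarith
      have hs4 : (s : ℝ) ≤ M := by nlinarith
      have hs5 : s ≤ M := by exact_mod_cast hs4
      have hcast : ((M - s : ℕ) : ℝ) = M - s := by rw [Nat.cast_sub hs5]
      have hMs : 1 ≤ M - s := by
        have h3 : (1 : ℝ) ≤ ((M - s : ℕ) : ℝ) := by
          rw [hcast]
          have : (1 - θ1) * (τ : ℝ) ≤ (1 - θ1) * M := mul_le_mul_of_nonneg_left hMτ' (by linarith)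
          linarith
        exact_mod_cast h3
      obtain ⟨l, hl1, hl2, hl3, hl4, hl5⟩ := ih (M - s) (by omega) hMs
      refine ⟨s :: l, ?_, ?_, ?_, ⟨?_, hl4⟩, ?_⟩
      · intro t ht
        rcases List.mem_cons.1 ht with rfl | ht
        · exact hs3
        · exact hl1 t ht
      · rw [List.sum_cons]; omega
      · rw [List.sum_cons]; omega
      · have h3 : (θ - θ1) * (τ : ℝ) ≤ (θ - θ1) * M := mul_le_mul_of_nonneg_left hMτ' (by linarith)
        nlinarith
      · rw [List.length_cons, pow_succ]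
        have h3 : (0 : ℝ) < 1 - θ2 := by linarith
        have h4 : ((M - s : ℕ) : ℝ) ≤ (1 - θ2) * M := by
          rw [hcast]
          have : (θ1 - θ2) * (τ : ℝ) ≤ (θ1 - θ2) * M := mul_le_mul_of_nonneg_left hMτ' (by linarith)
          linarith
        calc (1 / (1 - θ2)) ^ l.length * (1 / (1 - θ2)) ≤ ((1 - θ2) * M) * (1 / (1 - θ2)) :=
              mul_le_mul_of_nonneg_right (hl5.trans h4) (by positivity)
          _ = M := by field_simp

/-- sizes which add up exactly -/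
theorem sizes2 {θ : ℝ} (hθ : 1 / 4 ≤ θ) {d g : ℕ} (hg : 4 * (d + 1) ≤ g) :
    ∀ R : ℕ, ∃ l : List ℕ, (∀ s ∈ l, 1 ≤ s) ∧ l.sum = R ∧ Fit θ d (R + g) l ∧
      (5 / 4 : ℝ) ^ l.length ≤ 4 * R + 1 := by
  intro R
  induction R using Nat.strong_induction_on with
  | _ R ih =>
    rcases Nat.eq_zero_or_pos R with hR | hR
    · subst hR
      exact ⟨[], by simp, by simp, trivial, by simp⟩
    · set s : ℕ := (R + 3) / 4 with hs
      have hs1 : 1 ≤ s := by omega
      have hs2 : s ≤ R := by omega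
      have hs3 : 4 * s ≤ R + 3 := by omega
      have hs4 : R ≤ 4 * s := by omega
      obtain ⟨l, hl1, hl2, hl3, hl4⟩ := ih (R - s) (by omega)
      refine ⟨s :: l, ?_, ?_, ⟨?_, ?_⟩, ?_⟩
      · intro t ht
        rcases List.mem_cons.1 ht with rfl | ht
        · exact hs1
        · exact hl1 t ht
      · rw [List.sum_cons]; omega
      · have h1 : (4 : ℝ) * s ≤ R + 3 := by exact_mod_cast hs3
        have h2 : (4 : ℝ) * (d + 1) ≤ g := by exact_mod_cast hg
        have h3 : (1 / 4 : ℝ) * ((R + g : ℕ) : ℝ) ≤ θ * ((R + g : ℕ) : ℝ) :=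
          mul_le_mul_of_nonneg_right hθ (Nat.cast_nonneg _)
        push_cast at h3 ⊢
        linarith
      · have h1 : R + g - s = (R - s) + g := by omega
        rw [h1]; exact hl3
      · rw [List.length_cons, pow_succ]
        have h1 : ((R - s : ℕ) : ℝ) = R - s := by rw [Nat.cast_sub hs2]
        rw [h1] at hl4
        have h2 : (R : ℝ) ≤ 4 * s := by exact_mod_cast hs4
        have h3 : (1 : ℝ) ≤ R := by exact_mod_cast hR
        calc (5 / 4 : ℝ) ^ l.length * (5 / 4) ≤ (4 * ((R : ℝ) - s) + 1) * (5 / 4) :=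
              mul_le_mul_of_nonneg_right hl4 (by norm_num)
          _ ≤ 4 * R + 1 := by nlinarith

/-- small sizes fit into a large set -/
theorem fit_small {θ : ℝ} (hθ : 0 ≤ θ) {d : ℕ} : ∀ (l : List ℕ) (b B : ℕ), l.sum + B ≤ b →
    ((l.sum + d : ℕ) : ℝ) ≤ θ * B → Fit θ d b l := by
  intro l
  induction l with
  | nil => exact fun _ _ _ _ => trivial
  | cons s l ih =>
    intro b B hb hB
    rw [List.sum_cons] at hb hB
    refine ⟨?_, ih (b - s) B (by omega) ?_⟩
    · have h1 : (B : ℝ) ≤ b := by exact_mod_cast (by omega : B ≤ b)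
      have h2 : θ * B ≤ θ * b := mul_le_mul_of_nonneg_left h1 hθ
      have h3 : ((s + d : ℕ) : ℝ) ≤ ((s + l.sum + d : ℕ) : ℝ) := by
        exact_mod_cast (by omega : s + d ≤ s + l.sum + d)
      rw [Nat.cast_add] at h3
      linarith
    · refine le_trans ?_ hB
      exact_mod_cast (by omega : l.sum + d ≤ s + l.sum + d)

/-- exponential growth -/
theorem growth {x : ℝ} (hx : 1 < x) (A : ℝ) : ∃ r0 : ℕ, ∀ r : ℕ, r0 ≤ r → A * r < x ^ r := by
  have h1 := tendsto_pow_const_div_const_pow_of_one_lt 1 hx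
  have h2 : ∀ᶠ r : ℕ in Filter.atTop, ((r : ℝ) ^ 1 / x ^ r) < 1 / (|A| + 1) :=
    h1.eventually_lt_const (by positivity)
  obtain ⟨r0, hr0⟩ := Filter.eventually_atTop.1 h2
  refine ⟨r0, fun r hr => ?_⟩
  have h3 := hr0 r hr
  have hxr : 0 < x ^ r := pow_pos (by linarith) r
  rw [pow_one, div_lt_div_iff₀ hxr (by positivity), one_mul] at h3
  have h4 : A * r ≤ r * (|A| + 1) := by
    have h5 : A ≤ |A| + 1 := by linarith [le_abs_self A]
    have h6 : (0 : ℝ) ≤ r := Nat.cast_nonneg _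
    nlinarith
  linarith

end Pool.Agent.Helper286_MR
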